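import Mathlib

/-! Posets on initial segments of the integers, and the splicing of two places with the same
surroundings. -/

set_option autoImplicit false
set_option linter.unusedSectionVars false

namespace Pool.Agent.U678.BC

/-- a partial order on `{0, …, n - 1}` for which the usual order is a linear extension -/
structure Code where
  n : ℕ
  E : ℤ → ℤ → Prop
  rng : ∀ i j, E i j → 0 ≤ i ∧ i ≤ j ∧ j < n
  refl : ∀ i : ℤ, 0 ≤ i → i < n → E i i
  trans : ∀ i j k, E i j → E j k → E i k

/-- elements at distance at least `B` are comparable -/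
def Code.Band (c : Code) (B : ℕ) : Prop :=
  ∀ i j : ℤ, 0 ≤ i → (B : ℤ) ≤ j - i → j < c.n → c.E i j

/-- the surroundings of `x` and of `x'` of radius `L` are the same -/
def Same (L : ℕ) (c : Code) (x : ℤ) (c' : Code) (x' : ℤ) : Prop :=
  ∀ i j : ℤ, |i| ≤ L → |j| ≤ L → (c.E (x + i) (x + j) ↔ c'.E (x' + i) (x' + j))

lemma Same.trans {L : ℕ} {a b c : Code} {x y z : ℤ} (h : Same L a x b y) (h' : Same L b y c z) :
    Same L a x c z := fun i j hi hj => (h i j hi hj).trans (h' i j hi hj)

lemma Same.symm {L : ℕ} {a b : Code} {x y : ℤ} (h : Same L a x b y) : Same L b y a x :=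
  fun i j hi hj => (h i j hi hj).symm

lemma Same.rfl' {L : ℕ} {a : Code} {x : ℤ} : Same L a x a x := fun _ _ _ _ => Iff.rfl

section Splice

variable (c : Code) (B R c1 d : ℕ)

/-- the spliced relation -/
def spE (i j : ℤ) : Prop :=
  (j < c1 ∧ c.E i j) ∨ ((c1 : ℤ) ≤ i ∧ c.E (i + d) (j + d)) ∨
    (i < c1 ∧ (c1 : ℤ) ≤ j ∧ (((B : ℤ) ≤ j - i ∧ 0 ≤ i ∧ j + d < c.n) ∨
      (j - i < B ∧ c.E (i + d) (j + d))))

variable {c B R c1 d}

/-- the hypotheses of the splice -/
structure Good (c : Code) (B R c1 d : ℕ) : Prop where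
  band : c.Band B
  BR : B ≤ R
  d0 : 0 < d
  le : c1 + d ≤ c.n
  win : ∀ i j : ℤ, -(R : ℤ) ≤ i → i < R → -(R : ℤ) ≤ j → j < R →
    (c.E (c1 + i) (c1 + j) ↔ c.E (c1 + d + i) (c1 + d + j))

lemma Good.w (h : Good c B R c1 d) {i j : ℤ} (h1 : (c1 : ℤ) - R ≤ i) (h2 : i < c1 + R)
    (h3 : (c1 : ℤ) - R ≤ j) (h4 : j < c1 + R) : c.E i j ↔ c.E (i + d) (j + d) := by
  have := h.win (i - c1) (j - c1) (by omega) (by omega) (by omega) (by omega)
  rw [show (c1 : ℤ) + (i - c1) = i by ring, show (c1 : ℤ) + (j - c1) = j by ring,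
    show (c1 : ℤ) + d + (i - c1) = i + d by ring, show (c1 : ℤ) + d + (j - c1) = j + d by ring]
    at this
  exact this

/-- to the left of the splice nothing has changed -/
lemma s0 (h : Good c B R c1 d) {i j : ℤ} (hi : i < c1 + R) (hj : j < c1 + R) :
    spE c B c1 d i j ↔ c.E i j := by
  have hBR := h.BR
  have hle := h.le
  unfold spE
  constructor
  · rintro (⟨_, h1⟩ | ⟨h1, h2⟩ | ⟨h1, h2, h3 | h3⟩)
    · exact h1
    · obtain ⟨a1, a2, a3⟩ := c.rng _ _ h2
      exact (h.w (by omega) hi (by omega) hj).2 h2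
    · obtain ⟨b1, b2, b3⟩ := h3
      have h4 : c.E (j + d) (j + d) := c.refl _ (by omega) b3
      have h5 := (h.w (i := j) (j := j) (by omega) hj (by omega) hj).2 h4
      exact h.band i j b2 b1 (c.rng _ _ h5).2.2
    · exact (h.w (by omega) hi (by omega) hj).2 h3.2
  · intro h1
    obtain ⟨a1, a2, a3⟩ := c.rng _ _ h1
    by_cases h2 : j < c1
    · exact Or.inl ⟨h2, h1⟩
    · right
      by_cases h3 : (c1 : ℤ) ≤ i
      · left
        exact ⟨h3, (h.w (by omega) hi (by omega) hj).1 h1⟩
      · right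
        refine ⟨by omega, by omega, ?_⟩
        by_cases h4 : (B : ℤ) ≤ j - i
        · left
          have h5 : c.E j j := c.refl j (by omega) a3
          have h6 := (h.w (i := j) (j := j) (by omega) hj (by omega) hj).1 h5
          exact ⟨h4, a1, (c.rng _ _ h6).2.2⟩
        · right
          exact ⟨by omega, (h.w (by omega) hi (by omega) hj).1 h1⟩

/-- to the right of the splice everything is shifted -/
lemma sd (h : Good c B R c1 d) {i j : ℤ} (hi : (c1 : ℤ) - R ≤ i) (hj : (c1 : ℤ) - R ≤ j) :
    spE c B c1 d i j ↔ c.E (i + d) (j + d) := by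
  have hBR := h.BR
  have hle := h.le
  have hd0 := h.d0
  unfold spE
  constructor
  · rintro (⟨h0, h1⟩ | ⟨h1, h2⟩ | ⟨h1, h2, h3 | h3⟩)
    · obtain ⟨a1, a2, a3⟩ := c.rng _ _ h1
      exact (h.w hi (by omega) hj (by omega)).1 h1
    · exact h2
    · obtain ⟨b1, b2, b3⟩ := h3
      exact h.band _ _ (by omega) (by omega) b3
    · exact h3.2
  · intro h1
    obtain ⟨a1, a2, a3⟩ := c.rng _ _ h1
    by_cases h2 : j < c1
    · exact Or.inl ⟨h2, (h.w hi (by omega) hj (by omega)).2 h1⟩
    · right
      by_cases h3 : (c1 : ℤ) ≤ i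
      · exact Or.inl ⟨h3, h1⟩
      · right
        refine ⟨by omega, by omega, ?_⟩
        by_cases h4 : (B : ℤ) ≤ j - i
        · left
          have h5 : c.E (i + d) (i + d) := c.refl _ a1 (by omega)
          have h6 := (h.w (i := i) (j := i) hi (by omega) hi (by omega)).2 h5
          exact ⟨h4, (c.rng _ _ h6).1, a3⟩
        · exact Or.inr ⟨by omega, h1⟩

lemma sp_rng (h : Good c B R c1 d) (i j : ℤ) (hE : spE c B c1 d i j) :
    0 ≤ i ∧ i ≤ j ∧ j < ((c.n - d : ℕ) : ℤ) := by
  have hBR := h.BR
  have hle := h.le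
  have hd0 := h.d0
  have hn : ((c.n - d : ℕ) : ℤ) = c.n - d := by omega
  rw [hn]
  by_cases h1 : i < c1 + R ∧ j < c1 + R
  · have h2 := c.rng _ _ ((s0 h h1.1 h1.2).1 hE)
    unfold spE at hE
    rcases hE with ⟨h3, _⟩ | ⟨_, h3⟩ | ⟨_, _, h3 | h3⟩
    · omega
    · have := c.rng _ _ h3
      omega
    · omega
    · have := c.rng _ _ h3.2
      omega
  · unfold spE at hE
    rcases hE with ⟨h3, h4⟩ | ⟨_, h3⟩ | ⟨_, _, h3 | h3⟩
    · have := c.rng _ _ h4
      omega
    · have := c.rng _ _ h3
      omega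
    · omega
    · have := c.rng _ _ h3.2
      omega

/-- the spliced code -/
def splice (h : Good c B R c1 d) : Code where
  n := c.n - d
  E := spE c B c1 d
  rng := sp_rng h
  refl := by
    intro i h0 hn
    have hle := h.le
    have hBR := h.BR
    by_cases h1 : i < c1
    · exact (s0 h (by omega) (by omega)).2 (c.refl i h0 (by omega))
    · exact (sd h (by omega) (by omega)).2 (c.refl _ (by omega) (by omega))
  trans := by
    intro i j k hij hjk
    have hle := h.le
    have hBR := h.BR
    have h1 := sp_rng h i j hij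
    have h2 := sp_rng h j k hjk
    by_cases h3 : k < c1 + R
    · exact (s0 h (by omega) h3).2 (c.trans _ _ _ ((s0 h (by omega) (by omega)).1 hij)
        ((s0 h (by omega) h3).1 hjk))
    · by_cases h4 : (c1 : ℤ) - R ≤ i
      · exact (sd h h4 (by omega)).2 (c.trans _ _ _ ((sd h h4 (by omega)).1 hij)
          ((sd h (by omega) (by omega)).1 hjk))
      · unfold spE
        right; right
        exact ⟨by omega, by omega, Or.inl ⟨by omega, by omega, by omega⟩⟩

lemma splice_band (h : Good c B R c1 d) : (splice h).Band B := by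
  intro i j h0 hB hn
  have hle := h.le
  have hBR := h.BR
  have hn' : j < ((c.n - d : ℕ) : ℤ) := hn
  show spE c B c1 d i j
  unfold spE
  by_cases h1 : j < c1
  · exact Or.inl ⟨h1, h.band i j h0 hB (by omega)⟩
  · right
    by_cases h2 : (c1 : ℤ) ≤ i
    · exact Or.inl ⟨h2, h.band _ _ (by omega) (by omega) (by omega)⟩
    · right
      exact ⟨by omega, by omega, Or.inl ⟨hB, h0, by omega⟩⟩

lemma splice_same_left (h : Good c B R c1 d) {L : ℕ} {x : ℤ} (hx : x + L < c1 + R) :
    Same L (splice h) x c x := by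
  intro i j hi hj
  rw [abs_le] at hi hj
  exact s0 h (by omega) (by omega)

lemma splice_same_right (h : Good c B R c1 d) {L : ℕ} {x : ℤ} (hx : (c1 : ℤ) - R ≤ x - L) :
    Same L (splice h) x c (x + d) := by
  intro i j hi hj
  rw [abs_le] at hi hj
  have := sd h (i := x + i) (j := x + j) (by omega) (by omega)
  rw [show x + i + d = x + d + i by ring, show x + j + d = x + d + j by ring] at this
  exact this

end Splice

/-- the surroundings as a finite piece of data -/
noncomputable def typ (c : Code) (B R : ℕ) (p : ℕ) : Fin (2 * R) → Fin B → Bool := by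
  classical
  exact fun u v => decide (c.E ((p : ℤ) + u - R) ((p : ℤ) + u + v - R))

/-- two places with the same surroundings and no marks in between -/
lemma exists_good {c : Code} {B R : ℕ} (hB : c.Band B) (hB0 : 0 < B) (hBR : B ≤ R) {m : ℕ}
    {M : Finset ℤ} (hM : M.card ≤ m) (hn : (m + 1) * 2 ^ (B * (2 * R)) < c.n + 1) :
    ∃ c1 d : ℕ, Good c B R c1 d ∧ ∀ x ∈ M, x < c1 ∨ (c1 : ℤ) + d ≤ x := by
  classical
  let f : Fin (c.n + 1) → (Fin (2 * R) → Fin B → Bool) × Fin (m + 1) := fun p =>
    (typ c B R p, ⟨(M.filter (fun x : ℤ => x < ((p : ℕ) : ℤ))).card,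
      Nat.lt_succ_of_le ((Finset.card_filter_le _ _).trans hM)⟩)
  have hcard : Fintype.card ((Fin (2 * R) → Fin B → Bool) × Fin (m + 1)) <
      Fintype.card (Fin (c.n + 1)) := by
    simp only [Fintype.card_prod, Fintype.card_fun, Fintype.card_fin, Fintype.card_bool]
    rw [← pow_mul, mul_comm]
    exact hn
  obtain ⟨p, q, hpq, hf⟩ := Fintype.exists_ne_map_eq_of_card_lt f hcard
  have main : ∀ p q : Fin (c.n + 1), p < q → f p = f q → ∃ c1 d : ℕ, Good c B R c1 d ∧
      ∀ x ∈ M, x < c1 ∨ (c1 : ℤ) + d ≤ x := by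
    intro p q hlt hf
    have hlt' : (p : ℕ) < q := hlt
    refine ⟨p, q - p, ⟨hB, hBR, by omega, by omega, ?_⟩, ?_⟩
    · -- pairs at distance less than `B`
      have near : ∀ i j : ℤ, -(R : ℤ) ≤ i → i < R → i ≤ j → j - i < B →
          (c.E (p + i) (p + j) ↔ c.E (q + i) (q + j)) := by
        intro i j h1 h2 h3 h4
        have h5 : typ c B R p = typ c B R q := congrArg Prod.fst hf
        have h6 := congrFun (congrFun h5 ⟨(i + R).toNat, by omega⟩) ⟨(j - i).toNat, by omega⟩
        unfold typ at h6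
        simp only [decide_eq_decide] at h6
        have e1 : ((i + R).toNat : ℤ) = i + R := Int.toNat_of_nonneg (by omega)
        have e2 : ((j - i).toNat : ℤ) = j - i := Int.toNat_of_nonneg (by omega)
        rw [e1, e2, show (p : ℤ) + (i + R) - R = p + i by ring,
          show (p : ℤ) + (i + R) + (j - i) - R = p + j by ring,
          show (q : ℤ) + (i + R) - R = q + i by ring,
          show (q : ℤ) + (i + R) + (j - i) - R = q + j by ring] at h6
        exact h6
      intro i j h1 h2 h3 h4
      rw [show ((p : ℕ) : ℤ) + ((q : ℕ) - (p : ℕ) : ℕ) = (q : ℕ) by omega]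
      by_cases h5 : i ≤ j
      · by_cases h6 : j - i < B
        · exact near i j h1 h2 h5 h6
        · have hi := near i i h1 h2 le_rfl (by omega)
          have hj := near j j h3 h4 le_rfl (by omega)
          constructor
          · intro h7
            have h8 := c.rng _ _ h7
            have a1 := c.rng _ _ (hi.1 (c.refl _ h8.1 (by omega)))
            have a2 := c.rng _ _ (hj.1 (c.refl _ (by omega) h8.2.2))
            exact hB _ _ a1.1 (by omega) a2.2.2
          · intro h7
            have h8 := c.rng _ _ h7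
            have a1 := c.rng _ _ (hi.2 (c.refl _ h8.1 (by omega)))
            have a2 := c.rng _ _ (hj.2 (c.refl _ (by omega) h8.2.2))
            exact hB _ _ a1.1 (by omega) a2.2.2
      · constructor
        · intro h7
          have := c.rng _ _ h7
          omega
        · intro h7
          have := c.rng _ _ h7
          omega
    · intro x hx
      have h5 : (M.filter (fun x : ℤ => x < ((p : ℕ) : ℤ))).card =
          (M.filter (fun x : ℤ => x < ((q : ℕ) : ℤ))).card :=
        congrArg (fun z => (z.2 : ℕ)) hf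
      have h6 : M.filter (fun x : ℤ => x < ((p : ℕ) : ℤ)) ⊆
          M.filter (fun x : ℤ => x < ((q : ℕ) : ℤ)) := by
        intro z hz
        rw [Finset.mem_filter] at hz ⊢
        exact ⟨hz.1, by omega⟩
      have h7 := Finset.eq_of_subset_of_card_le h6 h5.ge
      by_contra hcon
      push Not at hcon
      have h8 : x ∈ M.filter (fun x : ℤ => x < ((q : ℕ) : ℤ)) := by
        rw [Finset.mem_filter]
        exact ⟨hx, by omega⟩
      rw [← h7, Finset.mem_filter] at h8
      omega
  rcases lt_or_gt_of_ne hpq with h | h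
  · exact main p q h hf
  · exact main q p h hf.symm

/-- **Reduction of the length.** -/
theorem reduce {B R L : ℕ} (hB0 : 0 < B) (hBR : B ≤ R) (hLR : L ≤ R) (m : ℕ) : ∀ (N : ℕ) (c : Code), c.n = N →
    c.Band B → ∀ M : Finset ℤ, M.card ≤ m → (∀ x ∈ M, 0 ≤ x ∧ x < c.n) →
    ∃ c' : Code, c'.Band B ∧ c'.n + 1 ≤ (m + 1) * 2 ^ (B * (2 * R)) ∧
      (∀ x' : ℤ, 0 ≤ x' → x' < c'.n → ∃ x : ℤ, 0 ≤ x ∧ x < c.n ∧ Same L c' x' c x) ∧
      ∀ x ∈ M, ∃ x' : ℤ, 0 ≤ x' ∧ x' < c'.n ∧ Same L c' x' c x := by
  classical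
  intro N
  induction N using Nat.strong_induction_on with
  | _ N ih =>
    intro c hcN hB M hM hMr
    by_cases hn : c.n + 1 ≤ (m + 1) * 2 ^ (B * (2 * R))
    · exact ⟨c, hB, hn, fun x' h0 h1 => ⟨x', h0, h1, Same.rfl'⟩,
        fun x hx => ⟨x, (hMr x hx).1, (hMr x hx).2, Same.rfl'⟩⟩
    · obtain ⟨c1, d, hg, hMd⟩ := exists_good hB hB0 hBR hM (not_le.1 hn)
      have hle := hg.le
      have hd0 := hg.d0
      have hn1 : (splice hg).n = c.n - d := rfl
      let g : ℤ → ℤ := fun x => if x < c1 then x else x - d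
      have hgr : ∀ x ∈ M, 0 ≤ g x ∧ g x < (splice hg).n ∧ Same L (splice hg) (g x) c x := by
        intro x hx
        have h1 := hMr x hx
        rcases hMd x hx with h2 | h2
        · have : g x = x := if_pos h2
          rw [this]
          exact ⟨h1.1, by rw [hn1]; omega, splice_same_left hg (by omega)⟩
        · have : g x = x - d := if_neg (by omega)
          rw [this]
          refine ⟨by omega, by rw [hn1]; omega, ?_⟩
          have h3 := splice_same_right hg (L := L) (x := x - d) (by omega)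
          rwa [show x - d + d = x by ring] at h3
      obtain ⟨c', a1, a2, a3, a4⟩ := ih (c.n - d) (by omega) (splice hg) rfl (splice_band hg)
        (M.image g) (Finset.card_image_le.trans hM) (by
          intro y hy
          rw [Finset.mem_image] at hy
          obtain ⟨x, hx, rfl⟩ := hy
          exact ⟨(hgr x hx).1, (hgr x hx).2.1⟩)
      refine ⟨c', a1, a2, ?_, ?_⟩
      · intro x' h0 h1
        obtain ⟨x, b1, b2, b3⟩ := a3 x' h0 h1
        rw [hn1] at b2
        by_cases h2 : x + L < c1 + R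
        · by_cases h3 : x < c1
          · exact ⟨x, b1, by omega, b3.trans (splice_same_left hg h2)⟩
          · exact ⟨x, b1, by omega, b3.trans (splice_same_left hg h2)⟩
        · exact ⟨x + d, by omega, by omega, b3.trans (splice_same_right hg (by omega))⟩
      · intro x hx
        obtain ⟨x', b1, b2, b3⟩ := a4 (g x) (Finset.mem_image_of_mem g hx)
        exact ⟨x', b1, b2, b3.trans (hgr x hx).2.2⟩

end Pool.Agent.U678.BC
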