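import Mathlib
import Pool.Agent.H13R3.WB.Lin

/-! The transfer operator of a finite poset and its contraction for thin posets. -/

set_option autoImplicit false
set_option linter.unusedSectionVars false

open Finset

namespace Pool.Agent.U678.BC

open Pool.Agent.H13R3.WB

section A

variable {P : Type} [Fintype P] [DecidableEq P]

/-- the elements which can be added to `I` -/
noncomputable def add (A : Finset P → Prop) (I : Finset P) : Finset P := by
  classical exact univ.filter (fun p => p ∉ I ∧ A (insert p I))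

lemma mem_add {A : Finset P → Prop} {I : Finset P} {p : P} :
    p ∈ add A I ↔ p ∉ I ∧ A (insert p I) := by
  classical
  unfold add
  simp

/-- `m` steps of the transfer operator -/
noncomputable def Tm (A : Finset P → Prop) : ℕ → (Finset P → ℝ) → Finset P → ℝ
  | 0, F, I => F I
  | m + 1, F, I => ∑ p ∈ add A I, Tm A m F (insert p I)

variable {A : Finset P → Prop}

lemma Tm_add (m k : ℕ) (F : Finset P → ℝ) : ∀ I, Tm A (m + k) F I = Tm A m (Tm A k F) I := by
  induction m with
  | zero => intro I; simp [Tm]
  | succ m ih =>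
    intro I
    rw [show m + 1 + k = (m + k) + 1 by ring, Tm, Tm]
    exact sum_congr rfl fun p _ => ih _

lemma Tm_le (m : ℕ) {F G : Finset P → ℝ} : ∀ I, A I →
    (∀ J, A J → J.card = I.card + m → I ⊆ J → F J ≤ G J) → Tm A m F I ≤ Tm A m G I := by
  induction m with
  | zero =>
    intro I hI h
    exact h I hI rfl (Subset.refl _)
  | succ m ih =>
    intro I hI h
    rw [Tm, Tm]
    refine sum_le_sum fun p hp => ?_
    rw [mem_add] at hp
    refine ih _ hp.2 fun J hJ hc hs => h J hJ ?_ ?_
    · rw [hc, card_insert_of_notMem hp.1]; ring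
    · exact (subset_insert _ _).trans hs

lemma Tm_congr (m : ℕ) {F G : Finset P → ℝ} (I : Finset P) (hI : A I)
    (h : ∀ J, A J → J.card = I.card + m → I ⊆ J → F J = G J) : Tm A m F I = Tm A m G I :=
  le_antisymm (Tm_le m I hI fun J h1 h2 h3 => (h J h1 h2 h3).le)
    (Tm_le m I hI fun J h1 h2 h3 => (h J h1 h2 h3).ge)

lemma Tm_nonneg (m : ℕ) {F : Finset P → ℝ} (h : ∀ J, 0 ≤ F J) : ∀ I, 0 ≤ Tm A m F I := by
  induction m with
  | zero => intro I; exact h I
  | succ m ih => intro I; rw [Tm]; exact sum_nonneg fun p _ => ih _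

lemma Tm_lin (m : ℕ) (a b : ℝ) (F G : Finset P → ℝ) : ∀ I,
    Tm A m (fun J => a * F J + b * G J) I = a * Tm A m F I + b * Tm A m G I := by
  induction m with
  | zero => intro I; rfl
  | succ m ih =>
    intro I
    rw [Tm, Tm, Tm, mul_sum, mul_sum, ← sum_add_distrib]
    exact sum_congr rfl fun p _ => ih _

/-- comparison of two sets of allowed sets -/
lemma Tm_mono_A {B : Finset P → Prop} (hAB : ∀ J, A J → B J) (m : ℕ) {F : Finset P → ℝ}
    (h : ∀ J, 0 ≤ F J) : ∀ I, Tm A m F I ≤ Tm B m F I := by
  induction m with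
  | zero => intro I; exact le_rfl
  | succ m ih =>
    intro I
    rw [Tm, Tm]
    calc ∑ p ∈ add A I, Tm A m F (insert p I) ≤ ∑ p ∈ add A I, Tm B m F (insert p I) :=
          sum_le_sum fun p _ => ih _
      _ ≤ ∑ p ∈ add B I, Tm B m F (insert p I) := by
          refine sum_le_sum_of_subset_of_nonneg ?_ fun p _ _ => Tm_nonneg m h _
          intro p hp
          rw [mem_add] at hp ⊢
          exact ⟨hp.1, hAB _ hp.2⟩

/-- if two sets of allowed sets agree on the sets of at most `l` elements -/
lemma Tm_congr_A {B : Finset P → Prop} {l : ℕ} (hAB : ∀ J, J.card ≤ l → (A J ↔ B J)) (m : ℕ)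
    {F : Finset P → ℝ} : ∀ I, I.card + m ≤ l → Tm A m F I = Tm B m F I := by
  induction m with
  | zero => intro I _; rfl
  | succ m ih =>
    intro I hI
    rw [Tm, Tm]
    have hadd : add A I = add B I := by
      ext p
      rw [mem_add, mem_add]
      constructor
      · rintro ⟨h1, h2⟩
        refine ⟨h1, (hAB _ ?_).1 h2⟩
        rw [card_insert_of_notMem h1]; omega
      · rintro ⟨h1, h2⟩
        refine ⟨h1, (hAB _ ?_).2 h2⟩
        rw [card_insert_of_notMem h1]; omega
    rw [hadd]
    refine sum_congr rfl fun p hp => ?_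
    rw [mem_add] at hp
    apply ih
    rw [card_insert_of_notMem hp.1]; omega

lemma D_eq_Tm [DecidablePred A] (m : ℕ) : ∀ J : Finset P,
    ((D A m J : ℕ) : ℝ) = Tm A m (fun _ => 1) J := by
  induction m with
  | zero => intro J; simp [D, Tm]
  | succ m ih =>
    intro J
    rw [D, Tm, Nat.cast_sum]
    have : add A J = univ.filter (fun p => p ∉ J ∧ A (insert p J)) := by
      ext p; rw [mem_add]; simp
    rw [this]
    exact sum_congr rfl fun p _ => ih _

end A

section B

variable {P : Type} [Fintype P] [DecidableEq P] [PartialOrder P]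

/-- the elements incomparable to `x` -/
noncomputable def inc (x : P) : Finset P := by
  classical exact univ.filter (fun z => ¬ x ≤ z ∧ ¬ z ≤ x)

lemma mem_inc {x z : P} : z ∈ inc x ↔ ¬ x ≤ z ∧ ¬ z ≤ x := by
  classical
  unfold inc
  simp

/-- every element is incomparable to at most `K` elements -/
def Thin (K : ℕ) (P : Type) [Fintype P] [PartialOrder P] : Prop :=
  ∀ x : P, Nat.card {z : P // ¬ x ≤ z ∧ ¬ z ≤ x} ≤ K

lemma card_inc (x : P) : (inc x).card = Nat.card {z : P // ¬ x ≤ z ∧ ¬ z ≤ x} := by
  classical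
  rw [Nat.card_eq_fintype_card, Fintype.card_subtype]
  unfold inc
  congr

/-- the elements below `x` -/
noncomputable def bel (x : P) : Finset P := by
  classical exact univ.filter (fun z => z < x)

lemma mem_bel {x z : P} : z ∈ bel x ↔ z < x := by
  classical
  unfold bel
  simp

lemma lowU {I J : Finset P} (hI : IsLow I) (hJ : IsLow J) : IsLow (I ∪ J) := by
  intro p hp q hq
  rw [mem_union] at hp ⊢
  rcases hp with hp | hp
  · exact Or.inl (hI p hp q hq)
  · exact Or.inr (hJ p hp q hq)

lemma isLow_empty : IsLow (∅ : Finset P) := by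
  intro p hp
  simp at hp

/-- a lower set containing `x` contains everything below `x` -/
lemma bel_card_lt {x : P} {J : Finset P} (hJ : IsLow J) (hx : x ∈ J) :
    (bel x).card < J.card := by
  apply card_lt_card
  rw [ssubset_iff_of_subset]
  · exact ⟨x, hx, fun h => lt_irrefl _ (mem_bel.1 h)⟩
  · intro z hz
    exact hJ x hx z (mem_bel.1 hz).le

/-- a lower set which is larger by `K` contains a given one -/
lemma sub_of_card {K : ℕ} (hK : Thin K P) {I J : Finset P} (hI : IsLow I) (hJ : IsLow J)
    (h : I.card + K ≤ J.card) : I ⊆ J := by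
  intro x hx
  by_contra hxJ
  have h1 := bel_card_lt hI hx
  have h2 : J ⊆ bel x ∪ inc x := by
    intro z hz
    rw [mem_union, mem_bel, mem_inc]
    by_cases hzx : z ≤ x
    · left
      exact lt_of_le_of_ne hzx (fun h => hxJ (h ▸ hz))
    · right
      exact ⟨fun h => hxJ (hJ z hz x h), hzx⟩
  have h3 := (card_le_card h2).trans (card_union_le _ _)
  have h4 : (inc x).card ≤ K := by rw [card_inc]; exact hK x
  omega

lemma sdiff_card_le {K : ℕ} (hK : Thin K P) {I J : Finset P} (hI : IsLow I) (hJ : IsLow J)
    (h : I.card = J.card) : (I \ J).card ≤ K := by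
  rcases (J \ I).eq_empty_or_nonempty with h1 | ⟨y, hy⟩
  · have h2 : J ⊆ I := sdiff_eq_empty_iff_subset.1 h1
    have h3 : J = I := eq_of_subset_of_card_le h2 h.le
    subst h3
    simp
  · have h2 : I \ J ⊆ inc y := by
      intro x hx
      rw [mem_sdiff] at hx hy
      rw [mem_inc]
      exact ⟨fun h => hy.2 (hI x hx.1 y h), fun h => hx.2 (hJ y hy.1 x h)⟩
    have h3 := card_le_card h2
    rw [card_inc] at h3
    exact h3.trans (hK y)

/-- moving `x` to the front -/
lemma front {x : P} {F : Finset P → ℝ} (hF : ∀ J, 0 ≤ F J) (hx : ∀ J, x ∉ J → F J = 0) :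
    ∀ (s : ℕ) (I : Finset P), IsLow I → x ∉ I → IsLow (insert x I) →
      Tm IsLow (s + 1) F I ≤ (((inc x \ I).card : ℝ) + 1) * Tm IsLow s F (insert x I) := by
  intro s
  induction s with
  | zero =>
    intro I hI hxI hxI2
    have h0 : Tm IsLow (0 + 1) F I = F (insert x I) := by
      rw [Tm, sum_eq_single_of_mem x (mem_add.2 ⟨hxI, hxI2⟩)]
      · rfl
      · intro p _ hpx
        apply hx
        rw [mem_insert]
        push Not
        exact ⟨hpx.symm, hxI⟩
    rw [h0]
    have h1 : (0 : ℝ) ≤ ((inc x \ I).card : ℝ) := Nat.cast_nonneg _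
    have h2 := hF (insert x I)
    show F (insert x I) ≤ _ * F (insert x I)
    nlinarith
  | succ s ih =>
    intro I hI hxI hxI2
    have hxA : x ∈ add IsLow I := mem_add.2 ⟨hxI, hxI2⟩
    rw [Tm, ← add_sum_erase _ _ hxA]
    have key : ∀ p ∈ (add IsLow I).erase x, Tm IsLow (s + 1) F (insert p I) ≤
        ((inc x \ I).card : ℝ) * Tm IsLow s F (insert p (insert x I)) := by
      intro p hp
      rw [mem_erase, mem_add] at hp
      obtain ⟨hpx, hpI, hpL⟩ := hp
      have hpinc : p ∈ inc x \ I := by
        rw [mem_sdiff, mem_inc]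
        refine ⟨⟨fun h => ?_, fun h => ?_⟩, hpI⟩
        · rcases mem_insert.1 (hpL p (mem_insert_self _ _) x h) with h | h
          · exact hpx h.symm
          · exact hxI h
        · rcases mem_insert.1 (hxI2 x (mem_insert_self _ _) p h) with h | h
          · exact hpx h
          · exact hpI h
      have hx2 : x ∉ insert p I := by
        rw [mem_insert]; push Not; exact ⟨hpx.symm, hxI⟩
      have hL : IsLow (insert x (insert p I)) := by
        have h := lowU hxI2 hpL
        have e : insert x I ∪ insert p I = insert x (insert p I) := by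
          ext z; simp only [mem_union, mem_insert]; tauto
        rwa [e] at h
      have h1 := ih (insert p I) hpL hx2 hL
      have h2 : (inc x \ insert p I).card + 1 = (inc x \ I).card := by
        have : inc x \ insert p I = (inc x \ I).erase p := by
          ext z; simp only [mem_sdiff, mem_insert, mem_erase]; tauto
        rw [this, card_erase_of_mem hpinc]
        have := card_pos.2 ⟨p, hpinc⟩
        omega
      rw [← h2]
      push_cast
      rwa [Finset.insert_comm]
    have hsum := sum_le_sum key
    rw [← mul_sum] at hsum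
    have hsub : (add IsLow I).erase x ⊆ add IsLow (insert x I) := by
      intro p hp
      rw [mem_erase, mem_add] at hp
      rw [mem_add]
      refine ⟨by rw [mem_insert]; push Not; exact ⟨hp.1, hp.2.1⟩, ?_⟩
      have h := lowU hxI2 hp.2.2
      have e : insert x I ∪ insert p I = insert p (insert x I) := by
        ext z; simp only [mem_union, mem_insert]; tauto
      rwa [e] at h
    have h3 : ∑ p ∈ (add IsLow I).erase x, Tm IsLow s F (insert p (insert x I)) ≤
        Tm IsLow (s + 1) F (insert x I) := by
      rw [Tm]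
      exact sum_le_sum_of_subset_of_nonneg hsub fun p _ _ => Tm_nonneg s hF _
    have h4 := mul_le_mul_of_nonneg_left h3 (Nat.cast_nonneg (α := ℝ) (inc x \ I).card)
    linarith

/-- adding the elements of `U \ I` first -/
lemma up {K : ℕ} (hK : Thin K P) {U : Finset P} (hU : IsLow U) {F : Finset P → ℝ}
    (hF : ∀ J, 0 ≤ F J) (hx : ∀ J, ¬ U ⊆ J → F J = 0) (s : ℕ) :
    ∀ (t : ℕ) (I : Finset P), IsLow I → I ⊆ U → (U \ I).card = t →
      Tm IsLow (s + t) F I ≤ ((K : ℝ) + 1) ^ t * Tm IsLow s F U ∧
      Tm IsLow s F U ≤ Tm IsLow (s + t) F I := by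
  intro t
  induction t with
  | zero =>
    intro I hI hIU h
    rw [card_eq_zero, sdiff_eq_empty_iff_subset] at h
    have : I = U := Subset.antisymm hIU h
    subst this
    simp
  | succ t ih =>
    intro I hI hIU h
    have hne : (U \ I).Nonempty := card_pos.1 (by omega)
    obtain ⟨x, hx1⟩ := (U \ I).exists_minimal hne
    have hx2 := hx1.prop
    rw [mem_sdiff] at hx2
    have hlow : IsLow (insert x I) := by
      intro p hp q hq
      rw [mem_insert] at hp ⊢
      rcases hp with rfl | hp
      · by_contra hcon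
        push Not at hcon
        have hqU : q ∈ U \ I := mem_sdiff.2 ⟨hU p hx2.1 q hq, hcon.2⟩
        exact hcon.1 (le_antisymm hq (hx1.le_of_le hqU hq))
      · exact Or.inr (hI p hp q hq)
    have hsub : insert x I ⊆ U := by
      intro z hz
      rcases mem_insert.1 hz with rfl | hz
      · exact hx2.1
      · exact hIU hz
    have hcard : (U \ insert x I).card = t := by
      have : U \ insert x I = (U \ I).erase x := by
        ext z; simp only [mem_sdiff, mem_insert, mem_erase]; tauto
      rw [this, card_erase_of_mem hx1.prop, h]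
      rfl
    obtain ⟨h1, h2⟩ := ih (insert x I) hlow hsub hcard
    have hxA : x ∈ add IsLow I := mem_add.2 ⟨hx2.2, hlow⟩
    constructor
    · have h3 := front hF (x := x) (fun J hJ => hx J fun h => hJ (h hx2.1)) (s + t) I hI hx2.2 hlow
      have h4 : ((inc x \ I).card : ℝ) + 1 ≤ (K : ℝ) + 1 := by
        have h5 : (inc x \ I).card ≤ K := by
          refine (card_le_card sdiff_subset).trans ?_
          rw [card_inc]; exact hK x
        have : ((inc x \ I).card : ℝ) ≤ K := by exact_mod_cast h5
        linarith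
      have h5 : 0 ≤ Tm IsLow (s + t) F (insert x I) := Tm_nonneg _ hF _
      have h6 : (0 : ℝ) ≤ (K : ℝ) + 1 := by positivity
      calc Tm IsLow (s + (t + 1)) F I ≤ _ := h3
        _ ≤ ((K : ℝ) + 1) * Tm IsLow (s + t) F (insert x I) := mul_le_mul_of_nonneg_right h4 h5
        _ ≤ ((K : ℝ) + 1) * (((K : ℝ) + 1) ^ t * Tm IsLow s F U) :=
            mul_le_mul_of_nonneg_left h1 h6
        _ = ((K : ℝ) + 1) ^ (t + 1) * Tm IsLow s F U := by ring
    · refine h2.trans ?_
      rw [show s + (t + 1) = (s + t) + 1 by ring, Tm]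
      exact single_le_sum (f := fun p => Tm IsLow (s + t) F (insert p I))
        (fun p _ => Tm_nonneg _ hF _) hxA

/-- comparison of two lower sets of the same size -/
lemma comp {K : ℕ} (hK : Thin K P) {m : ℕ} {G : Finset P → ℝ}
    (hG : ∀ J, IsLow J → J.card = m + K → 0 ≤ G J) {I I' : Finset P} (hI : IsLow I)
    (hI' : IsLow I') (h1 : I.card = m) (h2 : I'.card = m) :
    Tm IsLow K G I ≤ ((K : ℝ) + 1) ^ K * Tm IsLow K G I' := by
  classical
  set F : Finset P → ℝ := fun J => if IsLow J ∧ J.card = m + K then G J else 0 with hFdef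
  have hF : ∀ J, 0 ≤ F J := by
    intro J
    simp only [hFdef]
    split_ifs with h
    · exact hG J h.1 h.2
    · exact le_rfl
  have e1 : Tm IsLow K G I = Tm IsLow K F I := Tm_congr K I hI fun J hJ hc _ => by
    simp only [hFdef]; rw [if_pos ⟨hJ, by omega⟩]
  have e2 : Tm IsLow K G I' = Tm IsLow K F I' := Tm_congr K I' hI' fun J hJ hc _ => by
    simp only [hFdef]; rw [if_pos ⟨hJ, by omega⟩]
  rw [e1, e2]
  set U := I ∪ I' with hUdef
  have hU : IsLow U := lowU hI hI'
  have hFU : ∀ J, ¬ U ⊆ J → F J = 0 := by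
    intro J hJ
    simp only [hFdef]
    rw [if_neg]
    rintro ⟨h3, h4⟩
    apply hJ
    rw [hUdef]
    exact union_subset (sub_of_card hK hI h3 (by omega)) (sub_of_card hK hI' h3 (by omega))
  have ht : (U \ I).card = (U \ I').card := by
    have a1 : (U \ I).card + I.card = U.card :=
      card_sdiff_add_card_eq_card (by rw [hUdef]; exact subset_union_left)
    have a2 : (U \ I').card + I'.card = U.card :=
      card_sdiff_add_card_eq_card (by rw [hUdef]; exact subset_union_right)
    omega
  have ht2 : (U \ I).card ≤ K := by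
    have : U \ I = I' \ I := by
      ext z; simp only [hUdef, mem_sdiff, mem_union]; tauto
    rw [this]
    exact sdiff_card_le hK hI' hI (by omega)
  obtain ⟨s, hs⟩ : ∃ s, K = s + (U \ I).card := ⟨K - (U \ I).card, by omega⟩
  have b1 := (up hK hU hF hFU s _ I hI (by rw [hUdef]; exact subset_union_left) rfl).1
  have b2 := (up hK hU hF hFU s _ I' hI' (by rw [hUdef]; exact subset_union_right) ht.symm).2
  rw [← hs] at b1 b2
  have b3 : ((K : ℝ) + 1) ^ (U \ I).card ≤ ((K : ℝ) + 1) ^ K :=
    pow_le_pow_right₀ (by have : (0 : ℝ) ≤ K := Nat.cast_nonneg _; linarith) ht2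
  calc Tm IsLow K F I ≤ _ := b1
    _ ≤ ((K : ℝ) + 1) ^ (U \ I).card * Tm IsLow K F I' :=
        mul_le_mul_of_nonneg_left b2 (by positivity)
    _ ≤ ((K : ℝ) + 1) ^ K * Tm IsLow K F I' :=
        mul_le_mul_of_nonneg_right b3 (Tm_nonneg _ hF _)

end B

end Pool.Agent.U678.BC
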