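import Mathlib
import Pool.Agent.U678.BC.Tr
import Pool.Agent.H931R3.Bal10
import Pool.Agent.R636.BGap5

/-! Removing a small lower set from a thin poset changes the comparison probabilities of far elements
exponentially little. -/

set_option autoImplicit false
set_option linter.unusedSectionVars false

open Finset

namespace Pool.Agent.U678.BC

open Pool.Agent.H13R3.WB Pool.Agent.H931R3.Bal

section C

variable {P : Type} [Fintype P] [DecidableEq P] [PartialOrder P]

/-- the lower sets which contain `x` if they contain `y` -/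
def Axy (x y : P) (J : Finset P) : Prop := IsLow J ∧ (y ∈ J → x ∈ J)

/-- number of ways to complete a lower set -/
noncomputable def Hh (I : Finset P) : ℝ := Tm IsLow (Fintype.card P - I.card) (fun _ => 1) I

/-- number of ways to complete a lower set with `x` before `y` -/
noncomputable def Nn (x y : P) (I : Finset P) : ℝ :=
  Tm (Axy x y) (Fintype.card P - I.card) (fun _ => 1) I

lemma Hh_step {I : Finset P} (hI : IsLow I) {k : ℕ} (hk : I.card + k ≤ Fintype.card P) :
    Tm IsLow k Hh I = Hh I := by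
  have h1 : Hh I = Tm IsLow k (Tm IsLow (Fintype.card P - I.card - k) (fun _ => 1)) I := by
    unfold Hh
    rw [← Tm_add]
    congr 1
    omega
  rw [h1]
  refine Tm_congr k I hI fun J _ hc _ => ?_
  unfold Hh
  congr 1
  omega

lemma Nn_step {x y : P} {l : ℕ} (hl : l ≤ Fintype.card P)
    (hy : ∀ J : Finset P, IsLow J → J.card ≤ l → y ∉ J) {I : Finset P} (hI : IsLow I) {k : ℕ}
    (hk : I.card + k ≤ l) : Tm IsLow k (Nn x y) I = Nn x y I := by
  have hIA : Axy x y I := ⟨hI, fun h => absurd h (hy I hI (by omega))⟩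
  have h1 : Nn x y I = Tm (Axy x y) k
      (Tm (Axy x y) (Fintype.card P - I.card - k) (fun _ => 1)) I := by
    unfold Nn
    rw [← Tm_add]
    congr 1
    omega
  have h2 : Nn x y I = Tm (Axy x y) k (Nn x y) I := by
    rw [h1]
    refine Tm_congr k I hIA fun J _ hc _ => ?_
    unfold Nn
    congr 1
    omega
  rw [h2]
  refine Tm_congr_A (l := l) (fun J hJ => ?_) k I hk
  exact ⟨fun h => ⟨h, fun h' => absurd h' (hy J h hJ)⟩, fun h => h.1⟩

lemma Tm_pos (m : ℕ) : ∀ I : Finset P, IsLow I → I.card + m ≤ Fintype.card P →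
    0 < Tm IsLow m (fun _ => (1 : ℝ)) I := by
  induction m with
  | zero => intro I _ _; simp [Tm]
  | succ m ih =>
    intro I hI hc
    have hne : (univ \ I).Nonempty := by
      rw [← card_pos, card_sdiff_of_subset (subset_univ _), card_univ]; omega
    obtain ⟨x, hx1⟩ := (univ \ I).exists_minimal hne
    have hx2 := hx1.prop
    rw [mem_sdiff] at hx2
    have hlow : IsLow (insert x I) := by
      intro p hp q hq
      rw [mem_insert] at hp ⊢
      rcases hp with rfl | hp
      · by_contra hcon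
        push Not at hcon
        have hqU : q ∈ univ \ I := mem_sdiff.2 ⟨mem_univ _, hcon.2⟩
        exact hcon.1 (le_antisymm hq (hx1.le_of_le hqU hq))
      · exact Or.inr (hI p hp q hq)
    have h1 := ih (insert x I) hlow (by rw [card_insert_of_notMem hx2.2]; omega)
    rw [Tm]
    refine h1.trans_le ?_
    exact single_le_sum (f := fun p => Tm IsLow m (fun _ => (1 : ℝ)) (insert p I))
      (fun p _ => Tm_nonneg _ (fun _ => zero_le_one) _) (mem_add.2 ⟨hx2.2, hlow⟩)

lemma Hh_pos {I : Finset P} (hI : IsLow I) : 0 < Hh I := by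
  unfold Hh
  apply Tm_pos _ I hI
  have := card_le_univ I
  omega

lemma Nn_nonneg (x y : P) (I : Finset P) : 0 ≤ Nn x y I := Tm_nonneg _ (fun _ => zero_le_one) _

lemma Nn_le (x y : P) (I : Finset P) : Nn x y I ≤ Hh I :=
  Tm_mono_A (fun _ h => h.1) _ (fun _ => zero_le_one) _

/-- the contraction factor -/
noncomputable def rho (K : ℕ) : ℝ := 1 - ((((K : ℝ) + 1) ^ K)⁻¹) ^ 2

lemma comp' {K : ℕ} (hK : Thin K P) {m : ℕ} {G : Finset P → ℝ}
    (hG : ∀ J, IsLow J → J.card = m + K → 0 ≤ G J) {I I' : Finset P} (hI : IsLow I)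
    (hI' : IsLow I') (h1 : I.card = m) (h2 : I'.card = m) :
    (((K : ℝ) + 1) ^ K)⁻¹ * Tm IsLow K G I ≤ Tm IsLow K G I' := by
  have h3 := comp hK hG hI hI' h1 h2
  have h4 : (0 : ℝ) < ((K : ℝ) + 1) ^ K := by positivity
  rw [inv_mul_le_iff₀ h4]
  exact h3

lemma contr {K : ℕ} (hK : Thin K P) {x y : P} {l : ℕ} (hl : l ≤ Fintype.card P)
    (hy : ∀ J : Finset P, IsLow J → J.card ≤ l → y ∉ J) : ∀ k m : ℕ, m + k * K ≤ l →
      ∃ a b : ℝ, b - a = rho K ^ k ∧ ∀ I : Finset P, IsLow I → I.card = m →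
        a * Hh I ≤ Nn x y I ∧ Nn x y I ≤ b * Hh I := by
  intro k
  induction k with
  | zero =>
    intro m _
    refine ⟨0, 1, by simp, fun I _ _ => ?_⟩
    rw [zero_mul, one_mul]
    exact ⟨Nn_nonneg _ _ _, Nn_le _ _ _⟩
  | succ k ih =>
    intro m hm
    obtain ⟨a, b, hab, h⟩ := ih (m + K) (by rw [Nat.succ_mul] at hm; omega)
    by_cases hex : ∃ I : Finset P, IsLow I ∧ I.card = m
    · obtain ⟨I', hI', hm'⟩ := hex
      set κ : ℝ := (((K : ℝ) + 1) ^ K)⁻¹ with hκ
      have hκ0 : 0 ≤ κ := by rw [hκ]; positivity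
      have hmK : m + K ≤ l := by rw [Nat.succ_mul] at hm; omega
      have hHs : ∀ I : Finset P, IsLow I → I.card = m → Tm IsLow K Hh I = Hh I :=
        fun I h1 h2 => Hh_step h1 (by omega)
      have hNs : ∀ I : Finset P, IsLow I → I.card = m → Tm IsLow K (Nn x y) I = Nn x y I :=
        fun I h1 h2 => Nn_step hl hy h1 (by omega)
      have hHp : 0 < Hh I' := Hh_pos hI'
      set r : ℝ := Nn x y I' / Hh I' with hr
      have hrN : Nn x y I' = r * Hh I' := by rw [hr, div_mul_cancel₀ _ hHp.ne']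
      -- the two nonnegative combinations
      have hD1 : ∀ J, IsLow J → J.card = m + K → 0 ≤ 1 * Nn x y J + (-a) * Hh J := by
        intro J h1 h2
        have := (h J h1 h2).1
        linarith
      have hD2 : ∀ J, IsLow J → J.card = m + K → 0 ≤ (-1) * Nn x y J + b * Hh J := by
        intro J h1 h2
        have := (h J h1 h2).2
        linarith
      have hHcmp : ∀ I : Finset P, IsLow I → I.card = m → κ * Hh I ≤ Hh I' := by
        intro I h1 h2
        have := comp' hK (G := Hh) (fun J h3 _ => (Hh_pos (P := P) h3).le) h1 hI' h2 hm'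
        rwa [hHs I h1 h2, hHs I' hI' hm'] at this
      have hT1 : ∀ I : Finset P, IsLow I → I.card = m →
          Tm IsLow K (fun J => 1 * Nn x y J + (-a) * Hh J) I = Nn x y I - a * Hh I := by
        intro I h1 h2
        rw [Tm_lin, hHs I h1 h2, hNs I h1 h2]; ring
      have hT2 : ∀ I : Finset P, IsLow I → I.card = m →
          Tm IsLow K (fun J => (-1) * Nn x y J + b * Hh J) I = b * Hh I - Nn x y I := by
        intro I h1 h2
        rw [Tm_lin, hHs I h1 h2, hNs I h1 h2]; ring
      have hra : 0 ≤ (r - a) * Hh I' := by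
        have h1 : 0 ≤ Tm IsLow K (fun J => 1 * Nn x y J + (-a) * Hh J) I' := by
          have := Tm_le (A := IsLow) K (F := fun _ => 0)
            (G := fun J => 1 * Nn x y J + (-a) * Hh J) I' hI'
            (fun J h1 h2 _ => hD1 J h1 (by omega))
          refine le_trans ?_ this
          exact Tm_nonneg _ (fun _ => le_rfl) _
        rw [hT1 I' hI' hm', hrN] at h1
        linarith
      have hrb : 0 ≤ (b - r) * Hh I' := by
        have h1 : 0 ≤ Tm IsLow K (fun J => (-1) * Nn x y J + b * Hh J) I' := by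
          have := Tm_le (A := IsLow) K (F := fun _ => 0)
            (G := fun J => (-1) * Nn x y J + b * Hh J) I' hI'
            (fun J h1 h2 _ => hD2 J h1 (by omega))
          refine le_trans ?_ this
          exact Tm_nonneg _ (fun _ => le_rfl) _
        rw [hT2 I' hI' hm', hrN] at h1
        linarith
      have hra' : 0 ≤ r - a := nonneg_of_mul_nonneg_left hra hHp
      have hrb' : 0 ≤ b - r := nonneg_of_mul_nonneg_left hrb hHp
      refine ⟨a + κ ^ 2 * (r - a), b - κ ^ 2 * (b - r), ?_, fun I hI hIm => ⟨?_, ?_⟩⟩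
      · have e : rho K = 1 - κ ^ 2 := rfl
        rw [show rho K ^ (k + 1) = rho K ^ k * rho K from pow_succ _ _, ← hab, e]; ring
      · have h1 := comp' hK hD1 hI' hI hm' hIm
        rw [hT1 I hI hIm, hT1 I' hI' hm', hrN, ← hκ] at h1
        have h2 := mul_le_mul_of_nonneg_left (hHcmp I hI hIm) (mul_nonneg hκ0 hra')
        nlinarith [h1, h2]
      · have h1 := comp' hK hD2 hI' hI hm' hIm
        rw [hT2 I hI hIm, hT2 I' hI' hm', hrN, ← hκ] at h1
        have h2 := mul_le_mul_of_nonneg_left (hHcmp I hI hIm) (mul_nonneg hκ0 hrb')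
        nlinarith [h1, h2]
    · refine ⟨0, rho K ^ (k + 1), by ring, fun I hI hIm => absurd ⟨I, hI, hIm⟩ hex⟩

/-- the comparison probability by counts -/
lemma prob_eq_NH {x y : P} (hxy : x ≠ y) : prob P x y = Nn x y ∅ / Hh (∅ : Finset P) := by
  classical
  have hD1 : (Nat.card {f : P ≃ Fin (Fintype.card P) // Monotone f} : ℝ) = Hh (∅ : Finset P) := by
    rw [Nat.card_eq_fintype_card, Fintype.card_subtype]
    have h1 := card_count (P := P) (A := IsLow) rfl isLow_empty
    have h2 : (univ.filter fun f : P ≃ Fin (Fintype.card P) => Monotone f) =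
        univ.filter (fun f : P ≃ Fin (Fintype.card P) =>
          ∀ k ≤ Fintype.card P, IsLow (Hs f k)) := by
      ext f
      rw [mem_filter, mem_filter, mono_iff]
    rw [h2]
    unfold Hh
    rw [card_empty, Nat.sub_zero, ← D_eq_Tm, ← h1]
  have hD2 : (Nat.card {f : P ≃ Fin (Fintype.card P) // Monotone f ∧ f x < f y} : ℝ) =
      Nn x y ∅ := by
    rw [Nat.card_eq_fintype_card, Fintype.card_subtype]
    have h1 := card_count (P := P) (A := Axy x y) rfl ⟨isLow_empty, fun h => by simp at h⟩
    have h2 : (univ.filter fun f : P ≃ Fin (Fintype.card P) => Monotone f ∧ f x < f y) =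
        univ.filter (fun f : P ≃ Fin (Fintype.card P) =>
          ∀ k ≤ Fintype.card P, Axy x y (Hs f k)) := by
      ext f
      rw [mem_filter, mem_filter, mono_lt_iff _ hxy]
      rfl
    rw [h2]
    unfold Nn
    rw [card_empty, Nat.sub_zero, ← D_eq_Tm, ← h1]
  unfold prob
  rw [hD1, hD2]

end C

section Sub

variable {P : Type} [Fintype P] [DecidableEq P]

/-- the sets containing `I0` from the subsets of the complement -/
def ext (I0 : Finset P) (J : Finset {z : P // z ∉ I0}) : Finset P :=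
  I0 ∪ J.map (Function.Embedding.subtype _)

lemma mem_ext {I0 : Finset P} {J : Finset {z : P // z ∉ I0}} {p : P} :
    p ∈ ext I0 J ↔ p ∈ I0 ∨ ∃ h : p ∉ I0, (⟨p, h⟩ : {z : P // z ∉ I0}) ∈ J := by
  unfold ext
  rw [mem_union, mem_map]
  constructor
  · rintro (h | ⟨q, hq, rfl⟩)
    · exact Or.inl h
    · exact Or.inr ⟨q.2, hq⟩
  · rintro (h | ⟨h, h'⟩)
    · exact Or.inl h
    · exact Or.inr ⟨_, h', rfl⟩

lemma ext_insert {I0 : Finset P} {J : Finset {z : P // z ∉ I0}} (p : {z : P // z ∉ I0}) :
    ext I0 (insert p J) = insert (p : P) (ext I0 J) := by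
  ext q
  rw [mem_insert, mem_ext, mem_ext]
  constructor
  · rintro (h | ⟨h, h'⟩)
    · exact Or.inr (Or.inl h)
    · rcases mem_insert.1 h' with h'' | h''
      · left; rw [← h'']
      · exact Or.inr (Or.inr ⟨h, h''⟩)
  · rintro (h | h | ⟨h, h'⟩)
    · right
      subst h
      exact ⟨p.2, mem_insert_self _ _⟩
    · exact Or.inl h
    · exact Or.inr ⟨h, mem_insert_of_mem h'⟩

lemma Tm_sub {I0 : Finset P} {A : Finset P → Prop} {AV : Finset {z : P // z ∉ I0} → Prop}
    (hA : ∀ J, AV J ↔ A (ext I0 J)) (F : Finset P → ℝ) (m : ℕ) :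
    ∀ J, Tm AV m (fun J => F (ext I0 J)) J = Tm A m F (ext I0 J) := by
  induction m with
  | zero => intro J; rfl
  | succ m ih =>
    intro J
    rw [Tm, Tm]
    have h1 : add A (ext I0 J) = (add AV J).map (Function.Embedding.subtype _) := by
      ext p
      rw [mem_add, mem_map]
      constructor
      · rintro ⟨h1, h2⟩
        rw [mem_ext] at h1
        push Not at h1
        refine ⟨⟨p, h1.1⟩, ?_, rfl⟩
        rw [mem_add]
        refine ⟨h1.2 h1.1, ?_⟩
        rw [hA, ext_insert]
        exact h2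
      · rintro ⟨q, hq, rfl⟩
        rw [mem_add] at hq
        refine ⟨?_, ?_⟩
        · rw [mem_ext]
          rintro (h | ⟨h, h'⟩)
          · exact q.2 h
          · exact hq.1 h'
        · have h := hq.2
          rw [hA, ext_insert] at h
          exact h
    rw [h1, sum_map]
    refine sum_congr rfl fun p _ => ?_
    rw [ih, ext_insert]
    rfl

end Sub

section E

variable {P : Type} [Fintype P] [DecidableEq P] [PartialOrder P]

lemma isLow_ext {I0 : Finset P} (h0 : IsLow I0) (J : Finset {z : P // z ∉ I0}) :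
    IsLow J ↔ IsLow (ext I0 J) := by
  constructor
  · intro h p hp q hq
    rw [mem_ext] at hp ⊢
    by_cases hq0 : q ∈ I0
    · exact Or.inl hq0
    · right
      rcases hp with hp | ⟨hp, hp'⟩
      · exact absurd (h0 p hp q hq) hq0
      · exact ⟨hq0, h _ hp' ⟨q, hq0⟩ hq⟩
  · intro h p hp q hq
    have h1 := h p.1 (mem_ext.2 (Or.inr ⟨p.2, hp⟩)) q.1 hq
    rw [mem_ext] at h1
    rcases h1 with h1 | ⟨_, h1⟩
    · exact absurd h1 q.2
    · exact h1

lemma card_ext_empty (I0 : Finset P) : ext I0 ∅ = I0 := by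
  unfold ext; simp

lemma prob_sub {I0 : Finset P} (h0 : IsLow I0) {x y : {z : P // z ∉ I0}} (hxy : x ≠ y) :
    prob {z : P // z ∉ I0} x y = Nn (x : P) (y : P) I0 / Hh I0 := by
  rw [prob_eq_NH hxy]
  have hc : Fintype.card {z : P // z ∉ I0} = Fintype.card P - I0.card := by
    rw [Fintype.card_subtype_compl]
    congr 1
    exact Fintype.card_coe I0
  congr 1
  · unfold Nn
    rw [card_empty, Nat.sub_zero, hc]
    have := Tm_sub (I0 := I0) (A := Axy (x : P) (y : P)) (AV := Axy x y) (fun J => ?_)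
      (fun _ => 1) (Fintype.card P - I0.card) ∅
    · rw [card_ext_empty] at this
      exact this
    · unfold Axy
      rw [isLow_ext h0]
      have hm : ∀ z : {z : P // z ∉ I0}, (z : P) ∈ ext I0 J ↔ z ∈ J := by
        intro z
        rw [mem_ext]
        constructor
        · rintro (h | ⟨_, h⟩)
          · exact absurd h z.2
          · exact h
        · intro h
          exact Or.inr ⟨z.2, h⟩
      rw [hm, hm]
  · unfold Hh
    rw [card_empty, Nat.sub_zero, hc]
    have := Tm_sub (I0 := I0) (A := IsLow) (AV := IsLow) (isLow_ext h0)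
      (fun _ => 1) (Fintype.card P - I0.card) ∅
    rw [card_ext_empty] at this
    exact this

/-- **Removing a lower set.** -/
theorem cut_low {K : ℕ} (hK : Thin K P) {I0 : Finset P} (h0 : IsLow I0)
    {x y : {z : P // z ∉ I0}} (hxy : x ≠ y) {k : ℕ}
    (hk : I0 = ∅ ∨ I0.card + k * K ≤ (bel (y : P)).card) :
    |prob P x y - prob {z : P // z ∉ I0} x y| ≤ rho K ^ k := by
  have hxy' : (x : P) ≠ y := fun h => hxy (Subtype.ext h)
  have hρ : 0 ≤ rho K := by
    unfold rho
    have h1 : (1 : ℝ) ≤ ((K : ℝ) + 1) ^ K :=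
      one_le_pow₀ (by have : (0 : ℝ) ≤ K := Nat.cast_nonneg _; linarith)
    have h2 : (((K : ℝ) + 1) ^ K)⁻¹ ≤ 1 := inv_le_one_of_one_le₀ h1
    have h3 : 0 ≤ (((K : ℝ) + 1) ^ K)⁻¹ := by positivity
    have h4 : ((((K : ℝ) + 1) ^ K)⁻¹) ^ 2 ≤ 1 := pow_le_one₀ h3 h2
    linarith
  rw [prob_sub h0 hxy, prob_eq_NH hxy']
  rcases hk with hk | hk
  · clear hxy hxy'
    generalize (x : P) = x'
    generalize (y : P) = y'
    rw [hk, sub_self, abs_zero]
    exact pow_nonneg hρ _
  · obtain ⟨a, b, hab, h⟩ := contr hK (x := (x : P)) (y := (y : P)) (l := (bel (y : P)).card)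
      (card_le_univ _) (fun J hJ hc hyJ => by have := bel_card_lt hJ hyJ; omega) k I0.card hk
    have hle : (bel (y : P)).card ≤ Fintype.card P := card_le_univ _
    have hm : (∅ : Finset P).card + I0.card ≤ (bel (y : P)).card := by
      rw [card_empty]; omega
    have e1 : Tm IsLow I0.card Hh (∅ : Finset P) = Hh ∅ := Hh_step isLow_empty (by omega)
    have e2 : Tm IsLow I0.card (Nn (x : P) y) (∅ : Finset P) = Nn (x : P) y ∅ :=
      Nn_step hle (fun J hJ hc hyJ => by have := bel_card_lt hJ hyJ; omega) isLow_empty hm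
    have b1 : a * Hh (∅ : Finset P) ≤ Nn (x : P) y ∅ := by
      have := Tm_le (A := IsLow) I0.card (F := fun J => a * Hh J + 0 * Hh J) (G := Nn (x : P) y) ∅
        isLow_empty (fun J h1 h2 _ => by
          have := (h J h1 (by rw [h2, card_empty]; omega)).1
          linarith)
      rw [Tm_lin, e1, e2] at this
      linarith
    have b2 : Nn (x : P) y ∅ ≤ b * Hh (∅ : Finset P) := by
      have := Tm_le (A := IsLow) I0.card (F := Nn (x : P) y) (G := fun J => b * Hh J + 0 * Hh J) ∅
        isLow_empty (fun J h1 h2 _ => by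
          have := (h J h1 (by rw [h2, card_empty]; omega)).2
          linarith)
      rw [Tm_lin, e1, e2] at this
      linarith
    obtain ⟨c1, c2⟩ := h I0 h0 rfl
    have p1 : 0 < Hh (∅ : Finset P) := Hh_pos isLow_empty
    have p2 : 0 < Hh I0 := Hh_pos h0
    have d1 : a ≤ Nn (x : P) y ∅ / Hh (∅ : Finset P) := by rw [le_div_iff₀ p1]; exact b1
    have d2 : Nn (x : P) y ∅ / Hh (∅ : Finset P) ≤ b := by rw [div_le_iff₀ p1]; exact b2
    have d3 : a ≤ Nn (x : P) y I0 / Hh I0 := by rw [le_div_iff₀ p2]; exact c1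
    have d4 : Nn (x : P) y I0 / Hh I0 ≤ b := by rw [div_le_iff₀ p2]; exact c2
    rw [abs_le]
    constructor <;> linarith

end E

end Pool.Agent.U678.BC
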