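import Mathlib
import Pool.Agent.U678.BC.Cut

/-! The comparison probability of two elements of a thin poset is determined, up to an exponentially
small error, by a window around them. -/

set_option autoImplicit false
set_option linter.unusedSectionVars false

open Finset

namespace Pool.Agent.U678.BC

open Pool.Agent.H13R3.WB Pool.Agent.H931R3.Bal

section A

variable {P : Type} [Fintype P] [PartialOrder P]

lemma rho_nonneg (K : ℕ) : 0 ≤ rho K := by
  unfold rho
  have h1 : (1 : ℝ) ≤ ((K : ℝ) + 1) ^ K :=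
    one_le_pow₀ (by have : (0 : ℝ) ≤ K := Nat.cast_nonneg _; linarith)
  have h2 : (((K : ℝ) + 1) ^ K)⁻¹ ≤ 1 := inv_le_one_of_one_le₀ h1
  have h3 : 0 ≤ (((K : ℝ) + 1) ^ K)⁻¹ := by positivity
  have h4 : ((((K : ℝ) + 1) ^ K)⁻¹) ^ 2 ≤ 1 := pow_le_one₀ h3 h2
  linarith

lemma rho_lt_one (K : ℕ) : rho K < 1 := by
  unfold rho
  have h3 : 0 < ((((K : ℝ) + 1) ^ K)⁻¹) ^ 2 := by positivity
  linarith

lemma Thin.dual {K : ℕ} (h : Thin K P) : Thin K Pᵒᵈ := by
  intro x
  refine le_trans (le_of_eq ?_) (h (OrderDual.ofDual x))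
  exact Nat.card_congr (Equiv.subtypeEquiv OrderDual.ofDual fun z => by
    constructor
    · rintro ⟨h1, h2⟩; exact ⟨h2, h1⟩
    · rintro ⟨h1, h2⟩; exact ⟨h2, h1⟩)

lemma Thin.sub {K : ℕ} (h : Thin K P) (p : P → Prop) [Fintype {z : P // p z}] :
    Thin K {z : P // p z} := by
  intro x
  refine le_trans ?_ (h x.1)
  refine Nat.card_le_card_of_injective
    (fun z : {z : {z : P // p z} // ¬ x ≤ z ∧ ¬ z ≤ x} =>
      (⟨z.1.1, z.2⟩ : {z : P // ¬ x.1 ≤ z ∧ ¬ z ≤ x.1})) ?_
  intro z z' h
  have h1 : z.1.1 = z'.1.1 := by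
    have := congrArg (fun w : {z : P // ¬ x.1 ≤ z ∧ ¬ z ≤ x.1} => w.1) h
    exact this
  exact Subtype.ext (Subtype.ext h1)

lemma Thin.mono {K K' : ℕ} (h : Thin K P) (hK : K ≤ K') : Thin K' P := fun x => (h x).trans hK

/-- removing an upper set -/
theorem cut_up [DecidableEq P] {K : ℕ} (hK : Thin K P) {U0 : Finset P}
    (h0 : ∀ p ∈ U0, ∀ q, p ≤ q → q ∈ U0)
    {x y : {z : P // z ∉ U0}} (hxy : x ≠ y) {k : ℕ}
    (hk : U0 = ∅ ∨ U0.card + k * K ≤ Nat.card {z : P // (x : P) < z}) :
    |prob P x y - prob {z : P // z ∉ U0} x y| ≤ rho K ^ k := by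
  set I0 : Finset Pᵒᵈ := U0.map (OrderDual.toDual (α := P)).toEmbedding with hI0
  have hmem : ∀ p : P, OrderDual.toDual p ∈ I0 ↔ p ∈ U0 := by
    intro p
    rw [hI0, mem_map]
    constructor
    · rintro ⟨q, hq, h⟩
      have : q = p := OrderDual.toDual.injective h
      rwa [← this]
    · intro h
      exact ⟨p, h, rfl⟩
  have hlow : IsLow I0 := by
    intro p hp q hq
    have h1 := (hmem (OrderDual.ofDual p)).1 hp
    exact (hmem (OrderDual.ofDual q)).2 (h0 _ h1 _ hq)
  let x' : {z : Pᵒᵈ // z ∉ I0} := ⟨OrderDual.toDual (y : P), fun h => y.2 ((hmem _).1 h)⟩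
  let y' : {z : Pᵒᵈ // z ∉ I0} := ⟨OrderDual.toDual (x : P), fun h => x.2 ((hmem _).1 h)⟩
  have hne : x' ≠ y' := by
    intro h
    have h0 : (x' : Pᵒᵈ) = (y' : Pᵒᵈ) := Subtype.ext_iff.1 h
    have h1 : (OrderDual.toDual (y : P)) = OrderDual.toDual (x : P) := h0
    exact hxy (Subtype.ext (OrderDual.toDual.injective h1).symm)
  have hc : I0.card = U0.card := by rw [hI0, card_map]
  have hb : (bel (y' : Pᵒᵈ)).card = Nat.card {z : P // (x : P) < z} := by
    classical
    rw [Nat.card_eq_fintype_card, Fintype.card_subtype]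
    refine card_bij (fun z _ => OrderDual.ofDual z) ?_ ?_ ?_
    · intro z hz
      rw [mem_bel] at hz
      rw [mem_filter]
      exact ⟨mem_univ _, hz⟩
    · intro z _ w _ h
      exact OrderDual.ofDual.injective h
    · intro z hz
      rw [mem_filter] at hz
      exact ⟨OrderDual.toDual z, by rw [mem_bel]; exact hz.2, rfl⟩
  have hk' : I0 = ∅ ∨ I0.card + k * K ≤ (bel (y' : Pᵒᵈ)).card := by
    rw [hc, hb]
    rcases hk with hk | hk
    · left; rw [hI0, hk, map_empty]
    · right; exact hk
  have h1 := cut_low hK.dual hlow hne hk'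
  have h2 : prob Pᵒᵈ (x' : Pᵒᵈ) (y' : Pᵒᵈ) = prob P x y :=
    Pool.Agent.R636.BG.prob_dual (y : P) (x : P)
  let e : {z : P // z ∉ U0}ᵒᵈ ≃o {z : Pᵒᵈ // z ∉ I0} :=
    { toFun := fun z => ⟨OrderDual.toDual (OrderDual.ofDual z).1, fun h =>
        (OrderDual.ofDual z).2 ((hmem _).1 h)⟩
      invFun := fun z => OrderDual.toDual ⟨OrderDual.ofDual z.1, fun h => z.2 ((hmem _).2 h)⟩
      left_inv := fun z => rfl
      right_inv := fun z => rfl
      map_rel_iff' := fun {a b} => Iff.rfl }
  have h3 : prob {z : Pᵒᵈ // z ∉ I0} x' y' = prob {z : P // z ∉ U0} x y := by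
    have h4 := Pool.Agent.R636.BG.prob_dual y x
    have h5 := prob_iso e (OrderDual.toDual y) (OrderDual.toDual x)
    rw [h4] at h5
    exact h5.symm
  rw [h2, h3] at h1
  exact h1

/-- the window -/
theorem window {K : ℕ} (hK : Thin K P) (l : P → ℤ) (hl : ∀ x y, x < y → l x < l y) {a b : ℤ}
    [Fintype {z : P // a ≤ l z ∧ l z < b}]
    {x y : {z : P // a ≤ l z ∧ l z < b}} (hxy : x ≠ y) {k : ℕ}
    (hlo : (∀ z, a ≤ l z) ∨
      Nat.card {z : P // l z < a} + (k + 1) * K ≤ Nat.card {z : P // l z < l y})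
    (hhi : (∀ z, l z < b) ∨
      Nat.card {z : P // b ≤ l z} + (k + 1) * K + 1 ≤ Nat.card {z : P // l x ≤ l z}) :
    |prob P x y - prob {z : P // a ≤ l z ∧ l z < b} x y| ≤ 2 * rho K ^ k := by
  classical
  -- the upper set
  set U0 : Finset P := univ.filter (fun z => b ≤ l z) with hU0
  have hmU : ∀ z, z ∈ U0 ↔ b ≤ l z := fun z => by rw [hU0, mem_filter]; simp
  have hUup : ∀ p ∈ U0, ∀ q, p ≤ q → q ∈ U0 := by
    intro p hp q hq
    rw [hmU] at hp ⊢
    rcases hq.lt_or_eq with h | h
    · exact hp.trans (hl _ _ h).le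
    · rwa [← h]
  let V := {z : P // z ∉ U0}
  let xV : V := ⟨x.1, fun h => absurd ((hmU _).1 h) (not_le.2 x.2.2)⟩
  let yV : V := ⟨y.1, fun h => absurd ((hmU _).1 h) (not_le.2 y.2.2)⟩
  have hxyP : (x : P) ≠ y := fun h => hxy (Subtype.ext h)
  have hxyV : xV ≠ yV := fun h => by
    have h0 : (xV : P) = (yV : P) := Subtype.ext_iff.1 h
    exact hxyP h0
  have hcU : U0.card = Nat.card {z : P // b ≤ l z} := by
    rw [Nat.card_eq_fintype_card, Fintype.card_subtype]
  have h1 : |prob P x y - prob V xV yV| ≤ rho K ^ k := by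
    refine cut_up (x := xV) (y := yV) hK hUup hxyV ?_
    rcases hhi with hhi | hhi
    · left
      rw [eq_empty_iff_forall_notMem]
      intro z hz
      exact absurd ((hmU z).1 hz) (not_le.2 (hhi z))
    · right
      have h2 : Nat.card {z : P // l x ≤ l z} ≤ Nat.card {z : P // (x : P) < z} + K + 1 := by
        rw [Nat.card_eq_fintype_card, Fintype.card_subtype, Nat.card_eq_fintype_card,
          Fintype.card_subtype]
        have h3 : (univ.filter fun z => l x ≤ l z) ⊆
            (univ.filter fun z => (x : P) < z) ∪ inc (x : P) ∪ {(x : P)} := by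
          intro z hz
          rw [mem_filter] at hz
          simp only [mem_union, mem_filter, mem_univ, true_and, mem_inc, mem_singleton]
          by_cases hzx : z = x
          · exact Or.inr hzx
          · left
            by_cases h4 : (x : P) ≤ z
            · exact Or.inl (lt_of_le_of_ne h4 (Ne.symm hzx))
            · right
              refine ⟨h4, fun h5 => ?_⟩
              have := hl z x (lt_of_le_of_ne h5 hzx)
              omega
        have h4 := (card_le_card h3).trans (card_union_le _ _)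
        have h5 := card_union_le (univ.filter fun z => (x : P) < z) (inc (x : P))
        have h6 : (inc (x : P)).card ≤ K := by rw [card_inc]; exact hK x
        rw [card_singleton] at h4
        omega
      rw [hcU]
      have h3 : (k + 1) * K = k * K + K := by ring
      have : Nat.card {z : P // (xV : P) < z} = Nat.card {z : P // (x : P) < z} := rfl
      rw [this]
      omega
  -- the lower set in `V`
  set I0 : Finset V := univ.filter (fun z => l z.1 < a) with hI0
  have hmI : ∀ z : V, z ∈ I0 ↔ l z.1 < a := fun z => by rw [hI0, mem_filter]; simp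
  have hIlow : IsLow I0 := by
    intro p hp q hq
    rw [hmI] at hp ⊢
    rcases hq.lt_or_eq with h | h
    · exact (hl _ _ (show (q : P) < p from h)).trans hp
    · rwa [h]
  let xW : {z : V // z ∉ I0} := ⟨xV, fun h => absurd ((hmI _).1 h) (not_lt.2 x.2.1)⟩
  let yW : {z : V // z ∉ I0} := ⟨yV, fun h => absurd ((hmI _).1 h) (not_lt.2 y.2.1)⟩
  have hxyW : xW ≠ yW := fun h => by
    have h0 : (xW : V) = (yW : V) := Subtype.ext_iff.1 h
    exact hxyV h0
  have h2 : |prob V xV yV - prob {z : V // z ∉ I0} xW yW| ≤ rho K ^ k := by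
    refine cut_low (x := xW) (y := yW) (hK.sub _) hIlow hxyW ?_
    rcases hlo with hlo | hlo
    · left
      rw [eq_empty_iff_forall_notMem]
      intro z hz
      exact absurd ((hmI z).1 hz) (not_lt.2 (hlo z))
    · right
      have h3 : Nat.card {z : P // l z < l y} ≤ (bel (yV : V)).card + K := by
        rw [Nat.card_eq_fintype_card, Fintype.card_subtype]
        have h4 : (univ.filter fun z => l z < l y) ⊆
            ((bel (yV : V)) ∪ inc (yV : V)).map (Function.Embedding.subtype _) := by
          intro z hz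
          rw [mem_filter] at hz
          have hzV : z ∉ U0 := fun h => by
            have h5 := (hmU z).1 h
            have h6 := y.2.2
            omega
          rw [mem_map]
          refine ⟨⟨z, hzV⟩, ?_, rfl⟩
          rw [mem_union, mem_bel, mem_inc]
          by_cases h4 : z ≤ (y : P)
          · left
            refine lt_of_le_of_ne h4 fun h => ?_
            have : z = (y : P) := Subtype.ext_iff.1 h
            rw [this] at hz
            exact lt_irrefl _ hz.2
          · right
            refine ⟨fun h5 => ?_, h4⟩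
            have h5' : (y : P) ≤ z := h5
            rcases h5'.lt_or_eq with h6 | h6
            · have := hl _ _ h6
              omega
            · exact h4 h6.ge
        have h5 := card_le_card h4
        rw [card_map] at h5
        have h6 := card_union_le (bel (yV : V)) (inc (yV : V))
        have h7 : (inc (yV : V)).card ≤ K := by rw [card_inc]; exact (hK.sub _) _
        omega
      have h4 : I0.card ≤ Nat.card {z : P // l z < a} := by
        rw [Nat.card_eq_fintype_card, Fintype.card_subtype]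
        rw [← card_map (Function.Embedding.subtype _) (s := I0)]
        apply card_le_card
        intro z hz
        rw [mem_map] at hz
        obtain ⟨w, hw, rfl⟩ := hz
        rw [mem_filter]
        exact ⟨mem_univ _, (hmI w).1 hw⟩
      have h5 : (k + 1) * K = k * K + K := by ring
      have : (bel (yW : V)).card = (bel (yV : V)).card := rfl
      rw [this]
      omega
  let e : {z : V // z ∉ I0} ≃o {z : P // a ≤ l z ∧ l z < b} :=
    { toFun := fun z => ⟨z.1.1, not_lt.1 fun h => z.2 ((hmI _).2 h),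
        not_le.1 fun h => z.1.2 ((hmU _).2 h)⟩
      invFun := fun z => ⟨⟨z.1, fun h => absurd ((hmU _).1 h) (not_le.2 z.2.2)⟩,
        fun h => absurd ((hmI _).1 h) (not_lt.2 z.2.1)⟩
      left_inv := fun z => rfl
      right_inv := fun z => rfl
      map_rel_iff' := fun {a b} => Iff.rfl }
  have h3 : prob {z : V // z ∉ I0} xW yW = prob {z : P // a ≤ l z ∧ l z < b} x y :=
    prob_iso e xW yW
  rw [h3] at h2
  have h4 := abs_sub_le (prob P x y) (prob V xV yV) (prob {z : P // a ≤ l z ∧ l z < b} x y)
  linarith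

end A

end Pool.Agent.U678.BC
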