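import Mathlib
import Pool.Agent.U678.BC.Win
import Pool.Agent.U678.BC.Code

/-! The posets of codes; comparison of the balance constants of codes with the same surroundings. -/

set_option autoImplicit false
set_option linter.unusedSectionVars false

open Finset

namespace Pool.Agent.U678.BC

open Pool.Agent.H13R3.WB Pool.Agent.H931R3.Bal

/-- the poset of a code -/
def Pt (c : Code) : Type := Fin c.n

/-- the position of an element -/
def pos {c : Code} (z : Pt c) : ℤ := ((Fin.val (n := c.n) z : ℕ) : ℤ)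

instance (c : Code) : Fintype (Pt c) := inferInstanceAs (Fintype (Fin c.n))

instance (c : Code) : DecidableEq (Pt c) := inferInstanceAs (DecidableEq (Fin c.n))

lemma pos_inj {c : Code} {z w : Pt c} (h : pos z = pos w) : z = w := by
  unfold pos at h
  exact Fin.ext (by exact_mod_cast h)

lemma pos_nonneg {c : Code} (z : Pt c) : 0 ≤ pos z := by unfold pos; positivity

lemma pos_lt {c : Code} (z : Pt c) : pos z < c.n := by
  unfold pos
  exact_mod_cast Fin.isLt (n := c.n) z

lemma exists_pos {c : Code} {i : ℤ} (h0 : 0 ≤ i) (h1 : i < c.n) : ∃ z : Pt c, pos z = i :=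
  ⟨(⟨i.toNat, by omega⟩ : Fin c.n), by
    show ((i.toNat : ℕ) : ℤ) = i
    exact Int.toNat_of_nonneg h0⟩

instance (c : Code) : PartialOrder (Pt c) where
  le z w := c.E (pos z) (pos w)
  le_refl z := c.refl _ (pos_nonneg z) (pos_lt z)
  le_trans a b d h h' := c.trans _ _ _ h h'
  le_antisymm a b h h' := pos_inj (le_antisymm (c.rng _ _ h).2.1 (c.rng _ _ h').2.1)

lemma le_iff {c : Code} {z w : Pt c} : z ≤ w ↔ c.E (pos z) (pos w) := Iff.rfl

lemma pos_lt_of_lt {c : Code} (z w : Pt c) (h : z < w) : pos z < pos w := by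
  have h1 := (c.rng _ _ (le_iff.1 h.le)).2.1
  exact lt_of_le_of_ne h1 fun h2 => h.ne (pos_inj h2)

lemma card_Pt (c : Code) : Fintype.card (Pt c) = c.n := Fintype.card_fin c.n

lemma card_pos_lt {c : Code} (t : ℕ) (ht : t ≤ c.n) :
    Nat.card {z : Pt c // pos z < t} = t := by
  have h : Nat.card {z : Pt c // pos z < t} = Nat.card (Fin t) := Nat.card_congr
    { toFun := fun z => ⟨Fin.val (n := c.n) z.1, by
        have h := z.2
        unfold pos at h
        exact_mod_cast h⟩
      invFun := fun i => ⟨(⟨i, by omega⟩ : Fin c.n), by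
        show (((i : ℕ) : ℤ)) < t
        exact_mod_cast i.2⟩
      left_inv := fun z => rfl
      right_inv := fun i => rfl }
  rw [h, Nat.card_fin]

lemma card_pos_ge {c : Code} (t : ℕ) (ht : t ≤ c.n) :
    Nat.card {z : Pt c // (t : ℤ) ≤ pos z} = c.n - t := by
  have h1 := card_pos_lt (c := c) t ht
  have h2 : Nat.card {z : Pt c // ¬ pos z < t} = Nat.card (Pt c) - Nat.card {z : Pt c // pos z < t} := by
    classical
    rw [Nat.card_eq_fintype_card, Nat.card_eq_fintype_card, Nat.card_eq_fintype_card,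
      Fintype.card_subtype_compl]
  have h3 : Nat.card {z : Pt c // (t : ℤ) ≤ pos z} = Nat.card {z : Pt c // ¬ pos z < t} :=
    Nat.card_congr (Equiv.subtypeEquivRight fun z => not_lt.symm)
  rw [h3, h2, h1, Nat.card_eq_fintype_card, card_Pt]

/-- comparison with the window -/
lemma close_win {K D L k : ℕ} {c : Code} (hK : Thin K (Pt c)) {x : ℤ} (hx0 : 0 ≤ x)
    (hxn : x < c.n) (hL : D + (k + 1) * K ≤ L) {u v : Pt c} (huv : u ≠ v)
    (hu : |pos u - x| ≤ D) (hv : |pos v - x| ≤ D) :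
    ∃ (h1 : x - L ≤ pos u ∧ pos u < x + L + 1) (h2 : x - L ≤ pos v ∧ pos v < x + L + 1),
      |prob (Pt c) u v - prob {z : Pt c // x - L ≤ pos z ∧ pos z < x + L + 1} ⟨u, h1⟩ ⟨v, h2⟩| ≤
        2 * rho K ^ k := by
  classical
  rw [abs_le] at hu hv
  have h0 : 0 ≤ (k + 1) * K := Nat.zero_le _
  have hDL : (D : ℤ) + ((k + 1) * K : ℕ) ≤ L := by exact_mod_cast hL
  refine ⟨⟨by omega, by omega⟩, ⟨by omega, by omega⟩, ?_⟩
  refine window (P := Pt c) hK pos pos_lt_of_lt (x := ⟨u, _⟩) (y := ⟨v, _⟩)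
    (fun h => huv (Subtype.ext_iff.1 h)) ?_ ?_
  · by_cases h1 : x - L ≤ 0
    · left
      intro z
      have := pos_nonneg z
      omega
    · right
      obtain ⟨t, ht⟩ : ∃ t : ℕ, (t : ℤ) = x - L := ⟨(x - L).toNat, Int.toNat_of_nonneg (by omega)⟩
      have e1 : Nat.card {z : Pt c // pos z < x - L} = t := by
        rw [← ht]; exact card_pos_lt t (by omega)
      have hv0 := pos_nonneg v
      have hvn := pos_lt v
      obtain ⟨s, hs⟩ : ∃ s : ℕ, (s : ℤ) = pos v := ⟨(pos v).toNat, Int.toNat_of_nonneg hv0⟩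
      have e2 : Nat.card {z : Pt c // pos z < pos v} = s := by
        rw [← hs]; exact card_pos_lt s (by omega)
      rw [e1]
      show t + (k + 1) * K ≤ Nat.card {z : Pt c // pos z < pos v}
      rw [e2]
      omega
  · by_cases h1 : (c.n : ℤ) ≤ x + L + 1
    · left
      intro z
      have := pos_lt z
      omega
    · right
      obtain ⟨t, ht⟩ : ∃ t : ℕ, (t : ℤ) = x + L + 1 :=
        ⟨(x + L + 1).toNat, Int.toNat_of_nonneg (by omega)⟩
      have e1 : Nat.card {z : Pt c // x + L + 1 ≤ pos z} = c.n - t := by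
        rw [← ht]; exact card_pos_ge t (by omega)
      have hv0 := pos_nonneg u
      have hvn := pos_lt u
      obtain ⟨s, hs⟩ : ∃ s : ℕ, (s : ℤ) = pos u := ⟨(pos u).toNat, Int.toNat_of_nonneg hv0⟩
      have e2 : Nat.card {z : Pt c // pos u ≤ pos z} = c.n - s := by
        rw [← hs]; exact card_pos_ge s (by omega)
      rw [e1]
      show c.n - t + (k + 1) * K + 1 ≤ Nat.card {z : Pt c // pos u ≤ pos z}
      rw [e2]
      omega

/-- transport of elements between the same surroundings -/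
lemma Same.elt {L : ℕ} {c c' : Code} {x x' : ℤ} (h : Same L c' x' c x) {z : Pt c'}
    (hz : |pos z - x'| ≤ L) : ∃ w : Pt c, pos w = pos z - x' + x := by
  have h1 := (h (pos z - x') (pos z - x') hz hz).1 (by
    rw [show x' + (pos z - x') = pos z by ring]
    exact c'.refl _ (pos_nonneg z) (pos_lt z))
  have h2 := c.rng _ _ h1
  obtain ⟨w, hw⟩ := exists_pos (c := c) h2.1 h2.2.2
  exact ⟨w, by rw [hw]; ring⟩

lemma Same.le {L : ℕ} {c c' : Code} {x x' : ℤ} (h : Same L c' x' c x) {z w : Pt c'}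
    {z1 w1 : Pt c} (hz : |pos z - x'| ≤ L) (hw : |pos w - x'| ≤ L)
    (hz1 : pos z1 = pos z - x' + x) (hw1 : pos w1 = pos w - x' + x) : z ≤ w ↔ z1 ≤ w1 := by
  have h1 := h (pos z - x') (pos w - x') hz hw
  rw [show x' + (pos z - x') = pos z by ring, show x' + (pos w - x') = pos w by ring,
    show x + (pos z - x') = pos z1 by rw [hz1]; ring,
    show x + (pos w - x') = pos w1 by rw [hw1]; ring] at h1
  exact h1

/-- the windows are isomorphic -/
lemma Same.iso {L : ℕ} {c c' : Code} {x x' : ℤ} (h : Same L c' x' c x) :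
    ∃ e : {z : Pt c' // x' - L ≤ pos z ∧ pos z < x' + L + 1} ≃o
      {z : Pt c // x - L ≤ pos z ∧ pos z < x + L + 1},
      ∀ z, pos (e z).1 = pos z.1 - x' + x := by
  classical
  have h1 : ∀ z : {z : Pt c' // x' - L ≤ pos z ∧ pos z < x' + L + 1},
      ∃ w : {z : Pt c // x - L ≤ pos z ∧ pos z < x + L + 1}, pos w.1 = pos z.1 - x' + x := by
    intro z
    obtain ⟨w, hw⟩ := h.elt (z := z.1) (by rw [abs_le]; have := z.2; omega)
    exact ⟨⟨w, by have := z.2; omega⟩, hw⟩
  have h2 : ∀ w : {z : Pt c // x - L ≤ pos z ∧ pos z < x + L + 1},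
      ∃ z : {z : Pt c' // x' - L ≤ pos z ∧ pos z < x' + L + 1}, pos z.1 = pos w.1 - x + x' := by
    intro w
    obtain ⟨z, hz⟩ := h.symm.elt (z := w.1) (by rw [abs_le]; have := w.2; omega)
    exact ⟨⟨z, by have := w.2; omega⟩, hz⟩
  choose f hf using h1
  choose g hg using h2
  refine ⟨{ toFun := f
            invFun := g
            left_inv := fun z => Subtype.ext (pos_inj (by rw [hg, hf]; ring))
            right_inv := fun z => Subtype.ext (pos_inj (by rw [hf, hg]; ring))
            map_rel_iff' := fun {a b} => ?_ }, hf⟩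
  exact (h.le (z := a.1) (w := b.1) (by rw [abs_le]; have := a.2; omega)
    (by rw [abs_le]; have := b.2; omega) (hf a) (hf b)).symm

/-- the comparison probabilities in the same surroundings are close -/
theorem close {K D L k : ℕ} {c c' : Code} (hK : Thin K (Pt c)) (hK' : Thin K (Pt c')) {x x' : ℤ}
    (hx0 : 0 ≤ x) (hxn : x < c.n) (hx0' : 0 ≤ x') (hxn' : x' < c'.n)
    (hs : Same L c' x' c x) (hL : D + (k + 1) * K ≤ L) {u' v' : Pt c'} {u v : Pt c}
    (huv : u ≠ v) (hu : pos u = pos u' - x' + x) (hv : pos v = pos v' - x' + x)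
    (hu' : |pos u' - x'| ≤ D) (hv' : |pos v' - x'| ≤ D) :
    |prob (Pt c') u' v' - prob (Pt c) u v| ≤ 4 * rho K ^ k := by
  classical
  have huv' : u' ≠ v' := by
    rintro rfl
    exact huv (pos_inj (by rw [hu, hv]))
  obtain ⟨a1, a2, a3⟩ := close_win hK hx0 hxn hL huv (by rw [hu]; ring_nf; ring_nf at hu'; exact hu')
    (by rw [hv]; ring_nf; ring_nf at hv'; exact hv')
  obtain ⟨b1, b2, b3⟩ := close_win hK' hx0' hxn' hL huv' hu' hv'
  obtain ⟨e, he⟩ := hs.iso
  have e1 : e ⟨u', b1⟩ = ⟨u, a1⟩ := Subtype.ext (pos_inj (by rw [he, hu]))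
  have e2 : e ⟨v', b2⟩ = ⟨v, a2⟩ := Subtype.ext (pos_inj (by rw [he, hv]))
  have h1 := prob_iso e ⟨u', b1⟩ ⟨v', b2⟩
  rw [e1, e2] at h1
  rw [h1] at b3
  rw [abs_le] at a3 b3 ⊢
  constructor <;> linarith

end Pool.Agent.U678.BC
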