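import Mathlib
import Pool.Agent.U678.BC.Pt

/-! The code of a thin poset; thinness and balance constants of codes with the same surroundings. -/

set_option autoImplicit false
set_option linter.unusedSectionVars false

open Finset

namespace Pool.Agent.U678.BC

open Pool.Agent.H13R3.WB Pool.Agent.H931R3.Bal

/-- the code of a finite poset with a given linear extension -/
noncomputable def codeOf (P : Type) [PartialOrder P] (n : ℕ) (f : LEn P n) : Code where
  n := n
  E i j := ∃ a b : P, ((f.1 a : ℕ) : ℤ) = i ∧ ((f.1 b : ℕ) : ℤ) = j ∧ a ≤ b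
  rng := by
    rintro i j ⟨a, b, rfl, rfl, hab⟩
    have h1 := f.2 hab
    rw [Fin.le_def] at h1
    have h2 := (f.1 b).2
    exact ⟨by positivity, by exact_mod_cast h1, by exact_mod_cast h2⟩
  refl := by
    intro i h0 hn
    refine ⟨f.1.symm ⟨i.toNat, by omega⟩, f.1.symm ⟨i.toNat, by omega⟩, ?_, ?_, le_rfl⟩ <;>
      simp [Int.toNat_of_nonneg h0]
  trans := by
    rintro i j k ⟨a, b, rfl, hb, hab⟩ ⟨a', b', ha', rfl, hab'⟩
    have : b = a' := by
      apply f.1.injective
      apply Fin.ext
      have : ((f.1 b : ℕ) : ℤ) = ((f.1 a' : ℕ) : ℤ) := hb.trans ha'.symm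
      exact_mod_cast this
    subst this
    exact ⟨a, b', rfl, rfl, hab.trans hab'⟩

/-- the poset of the code is the given poset -/
noncomputable def codeIso (P : Type) [PartialOrder P] (n : ℕ) (f : LEn P n) :
    P ≃o Pt (codeOf P n f) where
  toEquiv := f.1
  map_rel_iff' := by
    intro a b
    constructor
    · rintro ⟨a', b', ha, hb, h⟩
      have e1 : a' = a := f.1.injective (Fin.ext (by
        have : ((f.1 a' : ℕ) : ℤ) = ((f.1 a : ℕ) : ℤ) := ha
        exact_mod_cast this))
      have e2 : b' = b := f.1.injective (Fin.ext (by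
        have : ((f.1 b' : ℕ) : ℤ) = ((f.1 b : ℕ) : ℤ) := hb
        exact_mod_cast this))
      rwa [← e1, ← e2]
    · intro h
      exact ⟨a, b, rfl, rfl, h⟩

/-- the band property of thin codes -/
lemma band_of_thin {K : ℕ} {c : Code} (hK : Thin K (Pt c)) : c.Band (2 * K) := by
  classical
  intro i j h0 hB hn
  obtain ⟨a, ha⟩ := exists_pos (c := c) h0 (by push_cast at hB; omega)
  obtain ⟨b, hb⟩ := exists_pos (c := c) (i := j) (by push_cast at hB; omega) hn
  by_contra hcon
  have hab : ¬ a ≤ b := by rw [le_iff, ha, hb]; exact hcon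
  rcases Nat.eq_zero_or_pos K with hK0 | hK0
  · -- chains
    have h1 := hK a
    rw [hK0, Nat.le_zero, Nat.card_eq_zero] at h1
    rcases h1 with h1 | h1
    · by_cases hba : b ≤ a
      · have h2 := (c.rng _ _ (le_iff.1 hba)).2.1
        rw [ha, hb] at h2
        have h3 : i = j := by push_cast at hB; omega
        apply hcon
        rw [h3]
        exact c.refl j (by omega) hn
      · exact h1.false ⟨b, hab, hba⟩
    · exact (not_finite_iff_infinite.2 h1) inferInstance
  · have hba : ¬ b ≤ a := fun h => by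
      have h2 := (c.rng _ _ (le_iff.1 h)).2.1
      rw [ha, hb] at h2
      push_cast at hB
      omega
    -- the elements between `a` and `b`
    have hsub : (univ.filter fun z : Pt c => i ≤ pos z ∧ pos z ≤ j) ⊆ inc a ∪ inc b := by
      intro z hz
      rw [mem_filter] at hz
      rw [mem_union, mem_inc, mem_inc]
      by_cases hza : z = a
      · right
        rw [hza]
        exact ⟨hba, hab⟩
      · by_cases hzb : z = b
        · left
          rw [hzb]
          exact ⟨hab, hba⟩
        · have h3 : ¬ z ≤ a := fun h => by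
            have h4 := pos_lt_of_lt _ _ (lt_of_le_of_ne h hza)
            omega
          have h5 : ¬ b ≤ z := fun h => by
            have h4 := pos_lt_of_lt _ _ (lt_of_le_of_ne h (Ne.symm hzb))
            omega
          by_cases h6 : a ≤ z
          · right
            exact ⟨h5, fun h7 => hab (h6.trans h7)⟩
          · left
            exact ⟨h6, h3⟩
    have h1 := (card_le_card hsub).trans (card_union_le _ _)
    have h2 : (inc a).card ≤ K := by rw [card_inc]; exact hK a
    have h3 : (inc b).card ≤ K := by rw [card_inc]; exact hK b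
    have h4 : (j - i).toNat + 1 ≤ (univ.filter fun z : Pt c => i ≤ pos z ∧ pos z ≤ j).card := by
      have h5 : (Finset.Icc i j).card = (j - i).toNat + 1 := by
        rw [Int.card_Icc]; omega
      rw [← h5]
      refine card_le_card_of_surjOn (fun z => pos z) ?_
      intro t ht
      rw [coe_Icc, Set.mem_Icc] at ht
      obtain ⟨z, hz⟩ := exists_pos (c := c) (i := t) (by omega) (by omega)
      exact ⟨z, by rw [coe_filter]; exact ⟨mem_univ _, by omega⟩, hz⟩
    push_cast at hB
    omega

/-- elements which are not comparable are close to each other -/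
lemma Code.Band.dist {B : ℕ} {c : Code} (hB : c.Band B) {z w : Pt c} (h1 : ¬ z ≤ w)
    (h2 : ¬ w ≤ z) : |pos z - pos w| < B := by
  rw [abs_lt]
  constructor
  · by_contra hcon
    exact h1 (hB _ _ (pos_nonneg z) (by omega) (pos_lt w))
  · by_contra hcon
    exact h2 (hB _ _ (pos_nonneg w) (by omega) (pos_lt z))

/-- thinness is a local property -/
lemma thin_of_same {K B L : ℕ} {c c' : Code} (hK : Thin K (Pt c)) (hB : c'.Band B) (hBL : B ≤ L)
    (hs : ∀ x' : ℤ, 0 ≤ x' → x' < c'.n → ∃ x : ℤ, 0 ≤ x ∧ x < c.n ∧ Same L c' x' c x) :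
    Thin K (Pt c') := by
  classical
  intro y
  obtain ⟨x, hx0, hxn, hsx⟩ := hs (pos y) (pos_nonneg y) (pos_lt y)
  obtain ⟨y1, hy1⟩ := exists_pos (c := c) hx0 hxn
  refine le_trans ?_ (hK y1)
  have h1 : ∀ z : {z : Pt c' // ¬ y ≤ z ∧ ¬ z ≤ y}, ∃ w : {z : Pt c // ¬ y1 ≤ z ∧ ¬ z ≤ y1},
      pos w.1 = pos z.1 - pos y + x := by
    intro z
    have hd := hB.dist z.2.1 z.2.2
    rw [abs_lt] at hd
    have hzL : |pos z.1 - pos y| ≤ L := by rw [abs_le]; omega
    have hyL : |pos y - pos y| ≤ L := by rw [sub_self, abs_zero]; positivity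
    obtain ⟨w, hw⟩ := hsx.elt hzL
    refine ⟨⟨w, ?_, ?_⟩, hw⟩
    · intro h
      exact z.2.1 ((hsx.le hyL hzL (by rw [hy1]; ring) hw).2 h)
    · intro h
      exact z.2.2 ((hsx.le hzL hyL hw (by rw [hy1]; ring)).2 h)
  choose g hg using h1
  refine Nat.card_le_card_of_injective g ?_
  intro z w h
  apply Subtype.ext
  apply pos_inj
  have h2 := hg z
  have h3 := hg w
  rw [h] at h2
  omega

lemma prob_nonneg' {P : Type} [Fintype P] [PartialOrder P] (x y : P) : 0 ≤ prob P x y := by
  unfold prob; positivity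

lemma balance_nonneg' {P : Type} [Fintype P] [PartialOrder P] : 0 ≤ balance P :=
  Real.iSup_nonneg fun _ => le_min (prob_nonneg' _ _) (prob_nonneg' _ _)

/-- upper bound for the balance constant of a code by that of a code with the same surroundings -/
theorem balance_le_of_same {K B L k : ℕ} {c c' : Code} (hK : Thin K (Pt c)) (hK' : Thin K (Pt c'))
    (hB : c'.Band B) (hL : B + (k + 1) * K ≤ L)
    (hs : ∀ x' : ℤ, 0 ≤ x' → x' < c'.n → ∃ x : ℤ, 0 ≤ x ∧ x < c.n ∧ Same L c' x' c x) :
    balance (Pt c') ≤ balance (Pt c) + 4 * rho K ^ k := by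
  have hρ := rho_nonneg K
  have h0 : 0 ≤ balance (Pt c) + 4 * rho K ^ k := by
    have := balance_nonneg' (P := Pt c)
    positivity
  unfold balance
  rcases isEmpty_or_nonempty (Pt c') with he | he
  · rw [Real.iSup_of_isEmpty]
    exact h0
  apply ciSup_le
  rintro ⟨u', v'⟩
  simp only
  by_cases h1 : u' ≤ v'
  · refine (min_le_right _ _).trans ?_
    rw [prob_eq_zero_of_le h1]
    exact h0
  by_cases h2 : v' ≤ u'
  · refine (min_le_left _ _).trans ?_
    rw [prob_eq_zero_of_le h2]
    exact h0
  have hd := hB.dist h1 h2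
  obtain ⟨x, hx0, hxn, hsx⟩ := hs (pos u') (pos_nonneg u') (pos_lt u')
  have huD : |pos u' - pos u'| ≤ (B : ℤ) := by rw [sub_self, abs_zero]; positivity
  have hvD : |pos v' - pos u'| ≤ (B : ℤ) := by rw [abs_sub_comm]; exact hd.le
  have hBL : (B : ℤ) ≤ L := by
    have : B ≤ L := le_trans (Nat.le_add_right _ _) hL
    exact_mod_cast this
  obtain ⟨u, hu⟩ := hsx.elt (huD.trans hBL)
  obtain ⟨v, hv⟩ := hsx.elt (hvD.trans hBL)
  have huv : u ≠ v := by
    rintro rfl
    exact h1 (le_of_eq (pos_inj (by omega)))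
  have c1 := close hK hK' hx0 hxn (pos_nonneg u') (pos_lt u') hsx hL huv hu hv huD hvD
  have c2 := close hK hK' hx0 hxn (pos_nonneg u') (pos_lt u') hsx hL huv.symm hv hu hvD huD
  rw [abs_le] at c1 c2
  have c3 : min (prob (Pt c) u v) (prob (Pt c) v u) ≤ balance (Pt c) := le_balance u v
  have c4 : min (prob (Pt c') u' v') (prob (Pt c') v' u') ≤
      min (prob (Pt c) u v) (prob (Pt c) v u) + 4 * rho K ^ k := by
    rw [← min_add_add_right]
    exact min_le_min (by linarith) (by linarith)
  show min (prob (Pt c') u' v') (prob (Pt c') v' u') ≤ balance (Pt c) + 4 * rho K ^ k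
  linarith

/-- lower bound, with a mark at an optimal pair -/
theorem le_balance_of_same {K B L k : ℕ} {c c' : Code} (hK : Thin K (Pt c))
    (hK' : Thin K (Pt c')) (hB : c.Band B) (hL : B + (k + 1) * K ≤ L) {u v : Pt c}
    (huv : balance (Pt c) = min (prob (Pt c) u v) (prob (Pt c) v u))
    (hs : ∃ x' : ℤ, 0 ≤ x' ∧ x' < c'.n ∧ Same L c' x' c (pos u)) :
    balance (Pt c) ≤ balance (Pt c') + 4 * rho K ^ k := by
  have hρ := rho_nonneg K
  have h0 : 0 ≤ balance (Pt c') + 4 * rho K ^ k := by
    have := balance_nonneg' (P := Pt c')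
    positivity
  rw [huv]
  by_cases h1 : u ≤ v
  · refine (min_le_right _ _).trans ?_
    rw [prob_eq_zero_of_le h1]
    exact h0
  by_cases h2 : v ≤ u
  · refine (min_le_left _ _).trans ?_
    rw [prob_eq_zero_of_le h2]
    exact h0
  have hd := hB.dist h1 h2
  obtain ⟨x', hx0, hxn, hsx⟩ := hs
  have hsx' := hsx.symm
  have huD : |pos u - pos u| ≤ (B : ℤ) := by rw [sub_self, abs_zero]; positivity
  have hvD : |pos v - pos u| ≤ (B : ℤ) := by rw [abs_sub_comm]; exact hd.le
  have hBL : (B : ℤ) ≤ L := by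
    have : B ≤ L := le_trans (Nat.le_add_right _ _) hL
    exact_mod_cast this
  obtain ⟨u', hu'⟩ := hsx'.elt (huD.trans hBL)
  obtain ⟨v', hv'⟩ := hsx'.elt (hvD.trans hBL)
  have huv' : u' ≠ v' := by
    rintro rfl
    exact h1 (le_of_eq (pos_inj (by omega)))
  have c1 := close hK' hK hx0 hxn (pos_nonneg u) (pos_lt u) hsx' hL huv' hu' hv' huD hvD
  have c2 := close hK' hK hx0 hxn (pos_nonneg u) (pos_lt u) hsx' hL huv'.symm hv' hu' hvD huD
  rw [abs_le] at c1 c2
  have c3 : min (prob (Pt c') u' v') (prob (Pt c') v' u') ≤ balance (Pt c') := le_balance u' v'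
  have c4 : min (prob (Pt c) u v) (prob (Pt c) v u) ≤
      min (prob (Pt c') u' v') (prob (Pt c') v' u') + 4 * rho K ^ k := by
    rw [← min_add_add_right]
    exact min_le_min (by linarith) (by linarith)
  linarith

end Pool.Agent.U678.BC
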