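import Mathlib
import Pool.Agent.U678.BC.Bal

/-! The class `𝒟` is described by the surroundings of the incomparable pairs. -/

set_option autoImplicit false
set_option linter.unusedSectionVars false

open Finset

namespace Pool.Agent.U678.BC

open Pool.Agent.H13R3.WB Pool.Agent.H931R3.Bal

/-- `x` and `y` are incomparable -/
def Ic {P : Type} [PartialOrder P] (x y : P) : Prop := ¬ x ≤ y ∧ ¬ y ≤ x

lemma Ic.symm {P : Type} [PartialOrder P] {x y : P} (h : Ic x y) : Ic y x := ⟨h.2, h.1⟩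

lemma Ic.ne {P : Type} [PartialOrder P] {x y : P} (h : Ic x y) : x ≠ y := by
  rintro rfl; exact h.1 le_rfl

/-- the incomparable pair `a`, `b` is contained in a block with three elements of the kind that occurs
in the class `𝒟` -/
def Blk {P : Type} [PartialOrder P] (a b : P) : Prop :=
  ∃ c : P, c ≠ a ∧ c ≠ b ∧ ((Ic a c ∧ ¬ Ic b c) ∨ (Ic b c ∧ ¬ Ic a c)) ∧
    ∀ z : P, z ≠ a → z ≠ b → z ≠ c → ¬ Ic z a ∧ ¬ Ic z b ∧ ¬ Ic z c

lemma Blk.iso {P Q : Type} [PartialOrder P] [PartialOrder Q] (e : P ≃o Q) {a b : P}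
    (h : Blk (e a) (e b)) : Blk a b := by
  obtain ⟨c, h1, h2, h3, h4⟩ := h
  have key : ∀ x y : P, Ic (e x) (e y) ↔ Ic x y := fun x y => by unfold Ic; simp
  refine ⟨e.symm c, ?_, ?_, ?_, ?_⟩
  · intro h; apply h1; rw [← h]; simp
  · intro h; apply h2; rw [← h]; simp
  · rw [← key a, ← key b, e.apply_symm_apply]; exact h3
  · intro z hz1 hz2 hz3
    rw [← key, ← key, ← key, e.apply_symm_apply]
    exact h4 (e z) (fun h => hz1 (e.injective h)) (fun h => hz2 (e.injective h))
      (fun h => hz3 (by rw [← h]; simp))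

/-- the order of the poset with three elements, decided -/
def rB : Fin 2 ⊕ Fin 1 → Fin 2 ⊕ Fin 1 → Bool
  | Sum.inl a, Sum.inl b => decide (a ≤ b)
  | Sum.inr _, Sum.inr _ => true
  | _, _ => false

lemma le_rB (x y : Fin 2 ⊕ Fin 1) : x ≤ y ↔ rB x y = true := by
  rcases x with x | x <;> rcases y with y | y
  · simp [rB]
  · simp [rB]
  · simp [rB]
  · simp [rB, Subsingleton.elim x y]

/-- the conclusion for the poset with three elements, decided -/
def tB (x y c z : Fin 2 ⊕ Fin 1) : Bool :=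
  (z = x) || (z = y) || (z = c) ||
    (!(!rB z x && !rB x z) && !(!rB z y && !rB y z) && !(!rB z c && !rB c z))

def uB (x y c : Fin 2 ⊕ Fin 1) : Bool :=
  (!(c = x : Bool)) && (!(c = y : Bool)) &&
    (((!rB x c && !rB c x) && !(!rB y c && !rB c y)) ||
      ((!rB y c && !rB c y) && !(!rB x c && !rB c x)))

lemma key3' : ∀ x y : Fin 2 ⊕ Fin 1, (!rB x y && !rB y x) = true →
    ∃ c : Fin 2 ⊕ Fin 1, uB x y c = true ∧ ∀ z, tB x y c z = true := by
  decide

lemma key3 (x y : Fin 2 ⊕ Fin 1) (h : Ic x y) : Blk x y := by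
  unfold Ic at h
  rw [le_rB, le_rB] at h
  obtain ⟨c, h1, h2⟩ := key3' x y (by simp [h.1, h.2])
  have hic : ∀ a b : Fin 2 ⊕ Fin 1, Ic a b ↔ (!rB a b && !rB b a) = true := by
    intro a b
    unfold Ic
    rw [le_rB, le_rB]
    simp
  refine ⟨c, ?_, ?_, ?_, ?_⟩
  · unfold uB at h1
    simp only [Bool.and_eq_true] at h1
    simpa using h1.1.1
  · unfold uB at h1
    simp only [Bool.and_eq_true] at h1
    simpa using h1.1.2
  · unfold uB at h1
    rw [Bool.and_eq_true] at h1
    rw [hic, hic]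
    have h3 := h1.2
    revert h3
    cases rB x c <;> cases rB c x <;> cases rB y c <;> cases rB c y <;> simp
  · intro z hx hy hc
    have h3 := h2 z
    unfold tB at h3
    rw [hic, hic, hic]
    simp only [hx, hy, hc, decide_false, Bool.false_or] at h3
    revert h3
    cases rB z x <;> cases rB x z <;> cases rB z y <;> cases rB y z <;> cases rB z c <;>
      cases rB c z <;> simp

theorem InD_blk {P : Type} [PartialOrder P] (h : InD P) : ∀ a b : P, Ic a b → Blk a b := by
  induction h with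
  | one P e =>
    obtain ⟨e⟩ := e
    intro a b hab
    exact absurd (e.le_iff_le.mp (by rw [Subsingleton.elim (e a) (e b)])) hab.1
  | three P e =>
    obtain ⟨e⟩ := e
    intro a b hab
    apply Blk.iso e
    have hab' : Ic (e a) (e b) := by unfold Ic; simpa [Ic] using hab
    exact key3 _ _ hab'
  | sum P Q R _ _ e ihP ihQ =>
    obtain ⟨e⟩ := e
    intro a b hab
    apply Blk.iso e
    have hab' : Ic (e a) (e b) := by unfold Ic; simpa [Ic] using hab
    generalize e a = x at hab'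
    generalize e b = y at hab'
    have hl : ∀ p q : P, Ic (Sum.inlₗ p : P ⊕ₗ Q) (Sum.inlₗ q) ↔ Ic p q := fun p q => by
      unfold Ic; simp
    have hr : ∀ p q : Q, Ic (Sum.inrₗ p : P ⊕ₗ Q) (Sum.inrₗ q) ↔ Ic p q := fun p q => by
      unfold Ic; simp
    have hlr : ∀ (p : P) (q : Q), ¬ Ic (Sum.inlₗ p : P ⊕ₗ Q) (Sum.inrₗ q) := fun p q h =>
      h.1 (Sum.Lex.inl_le_inr _ _)
    have hrl : ∀ (p : P) (q : Q), ¬ Ic (Sum.inrₗ q : P ⊕ₗ Q) (Sum.inlₗ p) := fun p q h =>
      h.2 (Sum.Lex.inl_le_inr _ _)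
    have hx : (∃ p : P, x = Sum.inlₗ p) ∨ ∃ q : Q, x = Sum.inrₗ q := by
      rcases x with p | q
      · exact Or.inl ⟨p, rfl⟩
      · exact Or.inr ⟨q, rfl⟩
    have hy : (∃ p : P, y = Sum.inlₗ p) ∨ ∃ q : Q, y = Sum.inrₗ q := by
      rcases y with p | q
      · exact Or.inl ⟨p, rfl⟩
      · exact Or.inr ⟨q, rfl⟩
    have hz : ∀ z : P ⊕ₗ Q, (∃ p : P, z = Sum.inlₗ p) ∨ ∃ q : Q, z = Sum.inrₗ q := by
      intro z
      rcases z with p | q
      · exact Or.inl ⟨p, rfl⟩
      · exact Or.inr ⟨q, rfl⟩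
    have inl_ne : ∀ {p q : P}, (Sum.inlₗ p : P ⊕ₗ Q) ≠ Sum.inlₗ q ↔ p ≠ q := by
      intro p q; simp
    have inr_ne : ∀ {p q : Q}, (Sum.inrₗ p : P ⊕ₗ Q) ≠ Sum.inrₗ q ↔ p ≠ q := by
      intro p q; simp
    rcases hx with ⟨p, rfl⟩ | ⟨q, rfl⟩ <;> rcases hy with ⟨p', rfl⟩ | ⟨q', rfl⟩
    · obtain ⟨c, h1, h2, h3, h4⟩ := ihP p p' ((hl _ _).1 hab')
      refine ⟨Sum.inlₗ c, inl_ne.2 h1, inl_ne.2 h2, by rw [hl, hl]; exact h3, ?_⟩
      intro z hz1 hz2 hz3
      rcases hz z with ⟨w, rfl⟩ | ⟨w, rfl⟩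
      · rw [hl, hl, hl]
        exact h4 w (inl_ne.1 hz1) (inl_ne.1 hz2) (inl_ne.1 hz3)
      · exact ⟨hrl _ _, hrl _ _, hrl _ _⟩
    · exact absurd hab' (hlr _ _)
    · exact absurd hab' (hrl _ _)
    · obtain ⟨c, h1, h2, h3, h4⟩ := ihQ q q' ((hr _ _).1 hab')
      refine ⟨Sum.inrₗ c, inr_ne.2 h1, inr_ne.2 h2, by rw [hr, hr]; exact h3, ?_⟩
      intro z hz1 hz2 hz3
      rcases hz z with ⟨w, rfl⟩ | ⟨w, rfl⟩
      · exact ⟨hlr _ _, hlr _ _, hlr _ _⟩
      · rw [hr, hr, hr]
        exact h4 w (inr_ne.1 hz1) (inr_ne.1 hz2) (inr_ne.1 hz3)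

/-- a poset is the direct sum of a subset and its complement if the elements of the subset are below
the other ones -/
noncomputable def splitIso {P : Type} [PartialOrder P] (S : Set P)
    (h : ∀ a ∈ S, ∀ b ∉ S, a ≤ b) : P ≃o ({a : P // a ∈ S} ⊕ₗ {a : P // a ∉ S}) := by
  classical
  exact
  { toFun := fun a => if ha : a ∈ S then (Sum.inlₗ ⟨a, ha⟩ : {a : P // a ∈ S} ⊕ₗ {a : P // a ∉ S})
      else Sum.inrₗ ⟨a, ha⟩
    invFun := fun z => Sum.elim (fun a => a.1) (fun a => a.1) (ofLex z)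
    left_inv := by
      intro a
      by_cases ha : a ∈ S
      · simp only [ha, dif_pos]; rfl
      · simp only [ha, dif_neg, not_false_eq_true]; rfl
    right_inv := by
      intro z
      rcases z with ⟨a, ha⟩ | ⟨a, ha⟩
      · exact dif_pos ha
      · exact dif_neg ha
    map_rel_iff' := by
      intro a b
      simp only [Equiv.coe_fn_mk]
      by_cases ha : a ∈ S <;> by_cases hb : b ∈ S
      · rw [dif_pos ha, dif_pos hb]; simp
      · rw [dif_pos ha, dif_neg hb]
        exact ⟨fun _ => h a ha b hb, fun _ => Sum.Lex.inl_le_inr _ _⟩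
      · rw [dif_neg ha, dif_pos hb]
        constructor
        · intro h'
          exact absurd h' (Sum.Lex.not_inr_le_inl)
        · intro h'
          exact absurd (le_antisymm h' (h b hb a ha)) (fun h'' => ha (h'' ▸ hb))
      · rw [dif_neg ha, dif_neg hb]; simp }

lemma blk_compl {P : Type} [PartialOrder P] {S : Set P} (hS : ∀ a ∈ S, ∀ b ∉ S, a ≤ b)
    (h : ∀ a b : P, Ic a b → Blk a b) : ∀ a b : {a : P // a ∉ S}, Ic a b → Blk a b := by
  intro a b hab
  obtain ⟨c, h1, h2, h3, h4⟩ := h a.1 b.1 hab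
  have hc : c ∉ S := by
    intro hc
    rcases h3 with h3 | h3
    · exact h3.1.2 (hS c hc a.1 a.2)
    · exact h3.1.2 (hS c hc b.1 b.2)
  refine ⟨⟨c, hc⟩, fun h => h1 (Subtype.ext_iff.1 h), fun h => h2 (Subtype.ext_iff.1 h), h3, ?_⟩
  intro z hz1 hz2 hz3
  exact h4 z.1 (fun h => hz1 (Subtype.ext h)) (fun h => hz2 (Subtype.ext h))
    (fun h => hz3 (Subtype.ext h))

lemma threeIso {P : Type} [PartialOrder P] {p q s : P} (hpq : p < q) (hsp : Ic s p)
    (hsq : Ic s q) (S : Set P) (hS : ∀ z, z ∈ S ↔ z = p ∨ z = q ∨ z = s) :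
    Nonempty ({a : P // a ∈ S} ≃o (Fin 2 ⊕ Fin 1)) := by
  have hp : p ∈ S := (hS p).2 (Or.inl rfl)
  have hq : q ∈ S := (hS q).2 (Or.inr (Or.inl rfl))
  have hs : s ∈ S := (hS s).2 (Or.inr (Or.inr rfl))
  let f : Fin 2 ⊕ Fin 1 → {a : P // a ∈ S} :=
    Sum.elim (fun i => if i = 0 then ⟨p, hp⟩ else ⟨q, hq⟩) (fun _ => ⟨s, hs⟩)
  have f0 : f (Sum.inl 0) = ⟨p, hp⟩ := rfl
  have f1 : f (Sum.inl 1) = ⟨q, hq⟩ := rfl
  have f2 : f (Sum.inr 0) = ⟨s, hs⟩ := rfl
  have hcase : ∀ x : Fin 2 ⊕ Fin 1, x = Sum.inl 0 ∨ x = Sum.inl 1 ∨ x = Sum.inr 0 := by decide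
  have hf : ∀ x y, f x ≤ f y ↔ x ≤ y := by
    intro x y
    rw [le_rB]
    rcases hcase x with rfl | rfl | rfl <;> rcases hcase y with rfl | rfl | rfl
    · simp [rB]
    · rw [f0, f1, Subtype.mk_le_mk]; simp [rB, hpq.le]
    · rw [f0, f2, Subtype.mk_le_mk]; simp [rB, hsp.2]
    · rw [f0, f1, Subtype.mk_le_mk]; simp [rB, not_le_of_gt hpq]
    · simp [rB]
    · rw [f1, f2, Subtype.mk_le_mk]; simp [rB, hsq.2]
    · rw [f0, f2, Subtype.mk_le_mk]; simp [rB, hsp.1]
    · rw [f1, f2, Subtype.mk_le_mk]; simp [rB, hsq.1]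
    · simp [rB]
  let e : (Fin 2 ⊕ Fin 1) ↪o {a : P // a ∈ S} := OrderEmbedding.ofMapLEIff f hf
  have hsurj : Function.Surjective e := by
    rintro ⟨z, hz⟩
    rcases (hS z).1 hz with rfl | rfl | rfl
    · exact ⟨Sum.inl 0, rfl⟩
    · exact ⟨Sum.inl 1, rfl⟩
    · exact ⟨Sum.inr 0, rfl⟩
  exact ⟨(RelIso.ofSurjective e hsurj).symm⟩

theorem InD_of_blk : ∀ (n : ℕ) (P : Type) [Fintype P] [PartialOrder P] [Nonempty P],
    Fintype.card P = n → (∀ a b : P, Ic a b → Blk a b) → InD P := by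
  classical
  intro n
  induction n using Nat.strong_induction_on with
  | _ n ih =>
    intro P _ _ _ hn h
    obtain ⟨x, hx⟩ := (univ : Finset P).exists_minimal univ_nonempty
    have hmin : ∀ z : P, z ≤ x → z = x := fun z hz => le_antisymm hz (hx.le_of_le (mem_univ z) hz)
    -- the general step
    have step : ∀ S : Set P, x ∈ S → (∀ a ∈ S, ∀ b ∉ S, a ≤ b) → InD {a : P // a ∈ S} →
        InD P := by
      intro S hxS hS hD
      by_cases hne : Nonempty {a : P // a ∉ S}
      · have hlt : Fintype.card {a : P // a ∉ S} < n := by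
          rw [← hn]
          exact Fintype.card_subtype_lt (x := x) (by simpa using hxS)
        exact InD.sum _ _ _ hD (ih _ hlt _ rfl (blk_compl hS h)) ⟨splitIso S hS⟩
      · have hall : ∀ z, z ∈ S := by
          intro z
          by_contra hz
          exact hne ⟨⟨z, hz⟩⟩
        exact InD.iso hD
          { toFun := fun z => z.1
            invFun := fun z => ⟨z, hall z⟩
            left_inv := fun z => rfl
            right_inv := fun z => rfl
            map_rel_iff' := fun {a b} => Iff.rfl }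
    by_cases hA : ∀ z, x ≤ z
    · refine step {x} rfl (fun a ha b _ => by rw [Set.mem_singleton_iff.1 ha]; exact hA b) ?_
      refine InD.one _ ⟨?_⟩
      exact
        { toFun := fun _ => 0
          invFun := fun _ => ⟨x, rfl⟩
          left_inv := fun z => Subtype.ext (Set.mem_singleton_iff.1 z.2).symm
          right_inv := fun z => Subsingleton.elim _ _
          map_rel_iff' := fun {a b} => by
            have ha : a = b := Subtype.ext
              ((Set.mem_singleton_iff.1 a.2).trans (Set.mem_singleton_iff.1 b.2).symm)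
            rw [ha]
            simp }
    · push Not at hA
      obtain ⟨b, hb⟩ := hA
      have hxb : Ic x b := ⟨hb, fun h' => hb (hmin b h').ge⟩
      obtain ⟨c, h1, h2, h3, h4⟩ := h x b hxb
      have hout : ∀ z, z ≠ x → z ≠ b → z ≠ c → x ≤ z ∧ b ≤ z ∧ c ≤ z := by
        intro z z1 z2 z3
        obtain ⟨g1, g2, g3⟩ := h4 z z1 z2 z3
        have hcmp : ∀ w : P, ¬ Ic z w → ¬ z ≤ w → w ≤ z := by
          intro w hw hzw
          by_contra hwz
          exact hw ⟨hzw, hwz⟩
        have k1 : x ≤ z := hcmp x g1 fun h' => z1 (hmin z h')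
        have k2 : b ≤ z := hcmp b g2 fun h' => hxb.1 (k1.trans h')
        refine ⟨k1, k2, hcmp c g3 fun h' => ?_⟩
        rcases h3 with h3 | h3
        · exact h3.1.1 (k1.trans h')
        · exact h3.1.1 (k2.trans h')
      have hS : ∀ a ∈ ({x, b, c} : Set P), ∀ w ∉ ({x, b, c} : Set P), a ≤ w := by
        intro a ha w hw
        simp only [Set.mem_insert_iff, Set.mem_singleton_iff, not_or] at ha hw
        obtain ⟨k1, k2, k3⟩ := hout w hw.1 hw.2.1 hw.2.2
        rcases ha with rfl | rfl | rfl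
        · exact k1
        · exact k2
        · exact k3
      refine step {x, b, c} (by simp) hS ?_
      rcases h3 with ⟨h3, h3'⟩ | ⟨h3, h3'⟩
      · -- `x` is the isolated point
        have hbc : b ≤ c ∨ c ≤ b := by
          by_contra hcon
          push Not at hcon
          exact h3' hcon
        rcases hbc with hbc | hbc
        · exact InD.three _ (threeIso (lt_of_le_of_ne hbc h2.symm) hxb h3 _ fun z => by
            simp only [Set.mem_insert_iff, Set.mem_singleton_iff]; tauto)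
        · exact InD.three _ (threeIso (lt_of_le_of_ne hbc h2) h3 hxb _ fun z => by
            simp only [Set.mem_insert_iff, Set.mem_singleton_iff]; tauto)
      · have hxc : x ≤ c ∨ c ≤ x := by
          by_contra hcon
          push Not at hcon
          exact h3' hcon
        rcases hxc with hxc | hxc
        · exact InD.three _ (threeIso (lt_of_le_of_ne hxc h1.symm) hxb.symm h3 _ fun z => by
            simp only [Set.mem_insert_iff, Set.mem_singleton_iff]; tauto)
        · exact InD.three _ (threeIso (lt_of_le_of_ne hxc h1) h3 hxb.symm _ fun z => by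
            simp only [Set.mem_insert_iff, Set.mem_singleton_iff]; tauto)

/-- a certificate for `P ∉ 𝒟` -/
theorem exists_not_blk {P : Type} [Fintype P] [PartialOrder P] [Nonempty P] (h : ¬ InD P) :
    ∃ a b : P, Ic a b ∧ ¬ Blk a b := by
  by_contra hcon
  push Not at hcon
  exact h (InD_of_blk _ P rfl hcon)

/-- the certificate is local -/
theorem not_InD_of_same {B L : ℕ} {c c' : Code} (hB : c.Band B) (hB' : c'.Band B)
    (hL : 3 * B ≤ L) {a b : Pt c} (hab : Ic a b) (hn : ¬ Blk a b)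
    (hs : ∃ x' : ℤ, 0 ≤ x' ∧ x' < c'.n ∧ Same L c' x' c (pos a)) : ¬ InD (Pt c') := by
  intro hD
  obtain ⟨x', hx0, hxn, hsx⟩ := hs
  have hs2 := hsx.symm
  have hd := hB.dist hab.1 hab.2
  rw [abs_lt] at hd
  have hLz : (3 * B : ℤ) ≤ L := by exact_mod_cast hL
  have haL : |pos a - pos a| ≤ (L : ℤ) := by rw [sub_self, abs_zero]; positivity
  have hbL : |pos b - pos a| ≤ (L : ℤ) := by rw [abs_le]; omega
  obtain ⟨a', ha'⟩ := hs2.elt haL
  obtain ⟨b', hb'⟩ := hs2.elt hbL
  have hab' : Ic a' b' :=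
    ⟨fun h => hab.1 ((hs2.le haL hbL ha' hb').2 h), fun h => hab.2 ((hs2.le hbL haL hb' ha').2 h)⟩
  obtain ⟨w', g1, g2, g3, g4⟩ := InD_blk hD a' b' hab'
  have ha2 : pos a' = x' := by rw [ha']; ring
  -- the third element
  have hw' : |pos w' - x'| ≤ (L : ℤ) := by
    rw [abs_le]
    have hb3 := hB'.dist hab'.1 hab'.2
    rw [abs_lt] at hb3
    rcases g3 with g3 | g3
    · have := hB'.dist g3.1.1 g3.1.2
      rw [abs_lt] at this
      omega
    · have := hB'.dist g3.1.1 g3.1.2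
      rw [abs_lt] at this
      omega
  obtain ⟨w, hw⟩ := hsx.elt hw'
  have haL' : |pos a' - x'| ≤ (L : ℤ) := by rw [ha2, sub_self, abs_zero]; positivity
  have hbL' : |pos b' - x'| ≤ (L : ℤ) := by rw [hb', abs_le]; omega
  have ha3 : pos a = pos a' - x' + pos a := by rw [ha2]; ring
  have hb3 : pos b = pos b' - x' + pos a := by rw [hb']; ring
  have hIc : ∀ {u v : Pt c'} {u1 v1 : Pt c}, |pos u - x'| ≤ (L : ℤ) → |pos v - x'| ≤ (L : ℤ) →
      pos u1 = pos u - x' + pos a → pos v1 = pos v - x' + pos a → (Ic u v ↔ Ic u1 v1) := by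
    intro u v u1 v1 k1 k2 k3 k4
    unfold Ic
    rw [hsx.le k1 k2 k3 k4, hsx.le k2 k1 k4 k3]
  apply hn
  refine ⟨w, ?_, ?_, ?_, ?_⟩
  · rintro rfl
    exact g1 (pos_inj (by omega))
  · rintro rfl
    exact g2 (pos_inj (by omega))
  · rw [← hIc haL' hw' ha3 hw, ← hIc hbL' hw' hb3 hw]
    exact g3
  · intro z z1 z2 z3
    have hwa : |pos w - pos a| ≤ 2 * (B : ℤ) := by
      rw [hw, abs_le]
      have hb4 := hB'.dist hab'.1 hab'.2
      rw [abs_lt] at hb4
      rcases g3 with g3 | g3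
      · have := hB'.dist g3.1.1 g3.1.2
        rw [abs_lt] at this
        omega
      · have := hB'.dist g3.1.1 g3.1.2
        rw [abs_lt] at this
        omega
    by_cases hz : |pos z - pos a| ≤ (L : ℤ)
    · obtain ⟨z', hz'⟩ := hs2.elt hz
      have hzL' : |pos z' - x'| ≤ (L : ℤ) := by
        rw [hz', abs_le]
        rw [abs_le] at hz
        omega
      have hz3 : pos z = pos z' - x' + pos a := by rw [hz']; ring
      obtain ⟨k1, k2, k3⟩ := g4 z' (by rintro rfl; exact z1 (pos_inj (by omega)))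
        (by rintro rfl; exact z2 (pos_inj (by omega)))
        (by rintro rfl; exact z3 (pos_inj (by omega)))
      rw [hIc hzL' haL' hz3 ha3] at k1
      rw [hIc hzL' hbL' hz3 hb3] at k2
      rw [hIc hzL' hw' hz3 hw] at k3
      exact ⟨k1, k2, k3⟩
    · rw [abs_le] at hz hwa
      refine ⟨fun hh => ?_, fun hh => ?_, fun hh => ?_⟩
      · have := hB.dist hh.1 hh.2
        rw [abs_lt] at this
        omega
      · have := hB.dist hh.1 hh.2
        rw [abs_lt] at this
        omega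
      · have := hB.dist hh.1 hh.2
        rw [abs_lt] at this
        omega

end Pool.Agent.U678.BC
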