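import Mathlib
import Pool.Agent.U678.BC.Ind
import Pool.Agent.H931R3.Bal15

/-! Antichains of codes with the same surroundings, and the reduction theorem for thin posets. -/

set_option autoImplicit false
set_option linter.unusedSectionVars false

open Finset

namespace Pool.Agent.U678.BC

open Pool.Agent.H13R3.WB Pool.Agent.H931R3.Bal

/-- transport of antichains -/
lemma anti_of_same {B L : ℕ} {c c' : Code} (hB : c'.Band B) (hBL : B ≤ L) {s : Finset (Pt c')}
    (hs : IsAntichain (· ≤ ·) (s : Set (Pt c'))) {a : Pt c'} (ha : a ∈ s) {x : ℤ}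
    (hsx : Same L c' (pos a) c x) :
    ∃ t : Finset (Pt c), IsAntichain (· ≤ ·) (t : Set (Pt c)) ∧ t.card = s.card := by
  classical
  have hL : ∀ z ∈ s, |pos z - pos a| ≤ (L : ℤ) := by
    intro z hz
    by_cases hza : z = a
    · rw [hza, sub_self, abs_zero]; positivity
    · have := hB.dist (hs hz ha hza) (hs ha hz (Ne.symm hza))
      rw [abs_lt] at this
      rw [abs_le]
      have hBL' : (B : ℤ) ≤ L := by exact_mod_cast hBL
      omega
  have h1 : ∀ z : {z // z ∈ s}, ∃ w : Pt c, pos w = pos z.1 - pos a + x := fun z =>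
    hsx.elt (hL z.1 z.2)
  choose f hf using h1
  have hinj : Function.Injective f := by
    intro z w h
    apply Subtype.ext
    apply pos_inj
    have h2 := hf z
    have h3 := hf w
    rw [h] at h2
    omega
  refine ⟨(univ : Finset {z // z ∈ s}).map ⟨f, hinj⟩, ?_, ?_⟩
  · intro u hu v hv huv hle
    rw [coe_map] at hu hv
    obtain ⟨z, -, rfl⟩ := hu
    obtain ⟨w, -, rfl⟩ := hv
    have hzw : z.1 ≠ w.1 := fun h => huv (by rw [Subtype.ext h])
    refine hs z.2 w.2 hzw ?_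
    exact (hsx.le (hL z.1 z.2) (hL w.1 w.2) (hf z) (hf w)).2 hle
  · rw [card_map, card_univ, Fintype.card_coe]

lemma HasWidth.iso {P Q : Type} [PartialOrder P] [PartialOrder Q] (e : P ≃o Q) {w : ℕ}
    (h : HasWidth P w) : HasWidth Q w := by
  classical
  have key : ∀ {P Q : Type} [PartialOrder P] [PartialOrder Q] (e : P ≃o Q) (s : Finset P),
      IsAntichain (· ≤ ·) (s : Set P) →
      IsAntichain (· ≤ ·) ((s.map e.toEquiv.toEmbedding : Finset Q) : Set Q) := by
    intro P Q _ _ e s hs u hu v hv huv hle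
    rw [coe_map] at hu hv
    obtain ⟨z, hz, rfl⟩ := hu
    obtain ⟨w, hw, rfl⟩ := hv
    exact hs hz hw (fun h => huv (by rw [h])) (e.le_iff_le.1 hle)
  obtain ⟨⟨s, h1, h2⟩, h3⟩ := h
  refine ⟨⟨s.map e.toEquiv.toEmbedding, key e s h1, by rw [card_map, h2]⟩, fun t ht => ?_⟩
  have h4 := h3 _ (key e.symm t ht)
  rwa [card_map] at h4

/-- the number of elements that is enough for `K`-thin posets -/
def NK (K k : ℕ) : ℕ := 4 * 2 ^ (2 * K * (2 * ((k + 7) * K)))

/-- **Reduction for codes.** -/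
theorem main_code {K k : ℕ} (hK0 : 0 < K) {c : Code} (hK : Thin K (Pt c)) (hc : 0 < c.n) :
    ∃ c' : Code, Thin K (Pt c') ∧ 0 < c'.n ∧ c'.n < NK K k ∧
      |balance (Pt c') - balance (Pt c)| ≤ 4 * rho K ^ k ∧ (InD (Pt c') ↔ InD (Pt c)) ∧
      ∀ w, HasWidth (Pt c') w ↔ HasWidth (Pt c) w := by
  classical
  have hB := band_of_thin hK
  set B := 2 * K with hBdef
  set L := (k + 7) * K with hLdef
  have hL1 : B + (k + 1) * K ≤ L := by rw [hBdef, hLdef]; nlinarith
  have hL3 : 3 * B ≤ L := by rw [hBdef, hLdef]; nlinarith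
  have hBL : B ≤ L := by omega
  have hB0 : 0 < B := by omega
  -- the marks
  have hne : Nonempty (Pt c) := ⟨(⟨0, hc⟩ : Fin c.n)⟩
  obtain ⟨⟨u, v⟩, huv⟩ := exists_eq_ciSup_of_finite
    (f := fun p : Pt c × Pt c => min (prob (Pt c) p.1 p.2) (prob (Pt c) p.2 p.1))
  have huv' : balance (Pt c) = min (prob (Pt c) u v) (prob (Pt c) v u) := huv.symm
  have hbad : ∃ a : Pt c, InD (Pt c) ∨ ∃ b : Pt c, Ic a b ∧ ¬ Blk a b := by
    by_cases hD : InD (Pt c)
    · exact ⟨hne.some, Or.inl hD⟩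
    · obtain ⟨a, b, h⟩ := exists_not_blk hD
      exact ⟨a, Or.inr ⟨b, h⟩⟩
  obtain ⟨a, ha⟩ := hbad
  -- a largest antichain
  obtain ⟨s, hs, hsmax⟩ : ∃ s : Finset (Pt c), IsAntichain (· ≤ ·) (s : Set (Pt c)) ∧
      ∀ t : Finset (Pt c), IsAntichain (· ≤ ·) (t : Set (Pt c)) → t.card ≤ s.card := by
    obtain ⟨s, hs, hmax⟩ := (univ.filter fun s : Finset (Pt c) =>
      IsAntichain (· ≤ ·) (s : Set (Pt c))).exists_max_image card ⟨∅, by simp⟩
    rw [mem_filter] at hs
    exact ⟨s, hs.2, fun t ht => hmax t (by rw [mem_filter]; exact ⟨mem_univ _, ht⟩)⟩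
  have hs1 : s.Nonempty := by
    have h1 := hsmax {hne.some} (by simp)
    rw [card_singleton] at h1
    exact card_pos.1 h1
  obtain ⟨p, hp⟩ := hs1
  obtain ⟨c', b1, b2, b3, b4⟩ := reduce hB0 hBL (le_refl L) 3 c.n c rfl hB
    {pos u, pos a, pos p} Finset.card_le_three (by
      intro x hx
      simp only [mem_insert, mem_singleton] at hx
      rcases hx with rfl | rfl | rfl
      · exact ⟨pos_nonneg _, pos_lt _⟩
      · exact ⟨pos_nonneg _, pos_lt _⟩
      · exact ⟨pos_nonneg _, pos_lt _⟩)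
  have hK' : Thin K (Pt c') := thin_of_same hK b1 hBL b3
  have m1 := b4 (pos u) (by simp)
  have m2 := b4 (pos a) (by simp)
  have m3 := b4 (pos p) (by simp)
  have hc' : 0 < c'.n := by
    obtain ⟨x', h0, h1, _⟩ := m1
    omega
  have hne' : Nonempty (Pt c') := ⟨(⟨0, hc'⟩ : Fin c'.n)⟩
  refine ⟨c', hK', hc', ?_, ?_, ?_, ?_⟩
  · have e1 : NK K k = (3 + 1) * 2 ^ (B * (2 * L)) := by
      unfold NK
      rw [hBdef, hLdef]
    rw [e1]
    omega
  · have h1 := balance_le_of_same hK hK' b1 hL1 b3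
    have h2 := le_balance_of_same hK hK' hB hL1 huv' m1
    rw [abs_le]
    constructor <;> linarith
  · constructor
    · intro hD'
      rcases ha with ha | ⟨b, hab, hn⟩
      · exact ha
      · exact absurd hD' (not_InD_of_same hB b1 hL3 hab hn m2)
    · intro hD
      by_contra hD'
      obtain ⟨a', b', hab', hn'⟩ := exists_not_blk hD'
      obtain ⟨x, h0, h1, h2⟩ := b3 (pos a') (pos_nonneg _) (pos_lt _)
      exact not_InD_of_same b1 hB hL3 hab' hn' ⟨x, h0, h1, h2.symm⟩ hD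
  · -- antichains
    have up : ∀ t : Finset (Pt c'), IsAntichain (· ≤ ·) (t : Set (Pt c')) → t.card ≤ s.card := by
      intro t ht
      rcases t.eq_empty_or_nonempty with h | ⟨a', ha'⟩
      · rw [h, card_empty]; exact Nat.zero_le _
      · obtain ⟨x, h0, h1, h2⟩ := b3 (pos a') (pos_nonneg _) (pos_lt _)
        obtain ⟨t2, h3, h4⟩ := anti_of_same b1 hBL ht ha' h2
        rw [← h4]
        exact hsmax t2 h3
    obtain ⟨x', h0, h1, h2⟩ := m3
    obtain ⟨t, ht1, ht2⟩ := anti_of_same hB hBL hs hp h2.symm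
    have w' : HasWidth (Pt c') s.card := ⟨⟨t, ht1, ht2⟩, up⟩
    have w0 : HasWidth (Pt c) s.card := ⟨⟨s, hs, rfl⟩, hsmax⟩
    have uniq : ∀ {P : Type} [PartialOrder P] {v w : ℕ}, HasWidth P v → HasWidth P w → v = w := by
      intro P _ v w hv hw
      obtain ⟨⟨s1, h1, h1'⟩, h2⟩ := hv
      obtain ⟨⟨s2, h3, h3'⟩, h4⟩ := hw
      have := h2 s2 h3
      have := h4 s1 h1
      omega
    intro w
    constructor
    · intro h
      rw [uniq h w']
      exact w0
    · intro h
      rw [uniq h w0]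
      exact w'

/-- **Reduction for thin posets.** -/
theorem main_thin {K k : ℕ} (hK0 : 0 < K) (P : Type) [Fintype P] [PartialOrder P] [Nonempty P]
    (hK : Thin K P) :
    ∃ (Q : Type) (_ : Fintype Q) (_ : PartialOrder Q), Nonempty Q ∧ Thin K Q ∧
      Fintype.card Q < NK K k ∧ |balance Q - balance P| ≤ 4 * rho K ^ k ∧ (InD Q ↔ InD P) ∧
      ∀ w, HasWidth Q w ↔ HasWidth P w := by
  obtain ⟨f⟩ : Nonempty (LEn P (Fintype.card P)) := LEn_nonempty rfl
  let e := codeIso P _ f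
  have hKc : Thin K (Pt (codeOf P _ f)) := by
    intro x
    refine le_trans (le_of_eq ?_) (hK (e.symm x))
    exact Nat.card_congr (Equiv.subtypeEquiv e.symm.toEquiv fun z => by
      show (¬ x ≤ z ∧ ¬ z ≤ x) ↔ (¬ e.symm x ≤ e.symm z ∧ ¬ e.symm z ≤ e.symm x)
      simp)
  obtain ⟨c', h1, h2, h3, h4, h5, h6⟩ := main_code (k := k) hK0 hKc (Fintype.card_pos (α := P))
  have hne : Nonempty (Pt (codeOf P _ f)) := ⟨e (Classical.arbitrary P)⟩
  have hb : balance (Pt (codeOf P _ f)) = balance P :=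
    le_antisymm (balance_iso e.symm) (balance_iso e)
  refine ⟨Pt c', inferInstance, inferInstance, ⟨(⟨0, h2⟩ : Fin c'.n)⟩, h1, ?_, ?_, ?_, ?_⟩
  · rw [card_Pt]; exact h3
  · rw [← hb]; exact h4
  · rw [h5]
    exact ⟨fun h => InD.iso h e.symm, fun h => InD.iso h e⟩
  · intro w
    rw [h6 w]
    exact ⟨HasWidth.iso e.symm, HasWidth.iso e⟩

end Pool.Agent.U678.BC
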