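import Mathlib
import Pool.Agent.U678.BC.Wid
import Pool.Agent.Y491.ID.Main

/-! The finite reduction for all posets, with an explicit bound. -/

set_option autoImplicit false
set_option linter.unusedSectionVars false

open Finset

namespace Pool.Agent.U678.BC

open Pool.Agent.H13R3.WB Pool.Agent.H931R3.Bal

/-- the number of steps that makes the error small -/
lemma rho_pow_le {K : ℕ} {η : ℝ} (h0 : 0 < η) {k : ℕ}
    (hk : (((K : ℝ) + 1) ^ K) ^ 2 * Real.log (4 / η) ≤ k) : 4 * rho K ^ k ≤ η := by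
  set κ : ℝ := ((((K : ℝ) + 1) ^ K)⁻¹) ^ 2 with hκ
  have hc : (0 : ℝ) < (((K : ℝ) + 1) ^ K) ^ 2 := by positivity
  have hκ2 : κ = ((((K : ℝ) + 1) ^ K) ^ 2)⁻¹ := by rw [hκ, inv_pow]
  have h1 : rho K ≤ Real.exp (-κ) := by
    unfold rho
    rw [← hκ]
    exact Real.one_sub_le_exp_neg κ
  have h2 : rho K ^ k ≤ Real.exp (-κ) ^ k := pow_le_pow_left₀ (rho_nonneg K) h1 k
  have h3 : Real.exp (-κ) ^ k = Real.exp (-(κ * k)) := by
    rw [← Real.exp_nat_mul]; congr 1; ring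
  have h4 : Real.log (4 / η) ≤ κ * k := by
    rw [hκ2, ← div_eq_inv_mul, le_div_iff₀ hc]
    linarith
  have h5 : Real.exp (-(κ * k)) ≤ Real.exp (-Real.log (4 / η)) :=
    Real.exp_le_exp.2 (by linarith)
  have h6 : Real.exp (-Real.log (4 / η)) = η / 4 := by
    rw [Real.exp_neg, Real.exp_log (by positivity), inv_div]
  have h7 : rho K ^ k ≤ η / 4 := by
    rw [h3] at h2
    linarith
  linarith

lemma exp_four : (42 : ℝ) ≤ Real.exp 4 := by
  have h1 := Real.exp_one_gt_d9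
  have h2 : Real.exp 4 = Real.exp 1 ^ 4 := by
    rw [← Real.exp_nat_mul]; norm_num
  rw [h2]
  have h3 : (2.7 : ℝ) ^ 4 ≤ Real.exp 1 ^ 4 := pow_le_pow_left₀ (by norm_num) (by linarith) 4
  have h4 : (42 : ℝ) ≤ 2.7 ^ 4 := by norm_num
  linarith

/-- the parameter of the bounds -/
noncomputable def tt (η : ℝ) : ℝ := Real.log (2 / η) ^ 3 / η ^ 4

lemma log_ge_one {η : ℝ} (h0 : 0 < η) (h1 : η ≤ 1 / 2) : 1 ≤ Real.log (2 / η) := by
  rw [Real.le_log_iff_exp_le (by positivity), le_div_iff₀ h0]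
  have := Real.exp_one_lt_d9
  nlinarith [Real.exp_pos 1]

lemma log_le_tt {η : ℝ} (h0 : 0 < η) (h1 : η ≤ 1 / 2) : Real.log (2 / η) ≤ tt η := by
  have h2 := log_ge_one h0 h1
  unfold tt
  have h3 : Real.log (2 / η) ≤ Real.log (2 / η) ^ 3 := by
    have := pow_le_pow_right₀ h2 (show 1 ≤ 3 by norm_num)
    rwa [pow_one] at this
  have h4 : η ^ 4 ≤ 1 := pow_le_one₀ h0.le (by linarith)
  have h5 : 0 < η ^ 4 := by positivity
  rw [le_div_iff₀ h5]
  calc Real.log (2 / η) * η ^ 4 ≤ Real.log (2 / η) * 1 :=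
        mul_le_mul_of_nonneg_left h4 (by linarith)
    _ ≤ Real.log (2 / η) ^ 3 := by linarith

lemma one_le_tt {η : ℝ} (h0 : 0 < η) (h1 : η ≤ 1 / 2) : 1 ≤ tt η :=
  (log_ge_one h0 h1).trans (log_le_tt h0 h1)

/-- the size bound in terms of `K` and `k` -/
lemma NK_le {B t : ℝ} (hB : 0 < B) (ht : 1 ≤ t) {K k : ℕ} (hK : (K : ℝ) ≤ Real.exp (B * t) + 1)
    {η : ℝ} (hη : Real.log (4 / η) ≤ 2 * t) (hη0 : 0 ≤ Real.log (4 / η))
    (hk : (k : ℝ) ≤ (((K : ℝ) + 1) ^ K) ^ 2 * Real.log (4 / η) + 1) :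
    (NK K k : ℝ) ≤ Real.exp (Real.exp (Real.exp ((2 * B + 5) * t))) := by
  set a := Real.exp (B * t) with ha
  have ha1 : 1 ≤ a := Real.one_le_exp (by positivity)
  have hKa : (K : ℝ) ≤ 2 * a := by linarith
  have hK0 : (0 : ℝ) ≤ K := Nat.cast_nonneg _
  -- the power
  have h1 : (((K : ℝ) + 1) ^ K) ^ 2 ≤ Real.exp (8 * a ^ 2) := by
    have h2 : (K : ℝ) + 1 ≤ Real.exp K := by
      have := Real.add_one_le_exp (K : ℝ); linarith
    have h3 : (((K : ℝ) + 1) ^ K) ^ 2 ≤ (Real.exp K ^ K) ^ 2 :=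
      pow_le_pow_left₀ (by positivity) (pow_le_pow_left₀ (by positivity) h2 K) 2
    refine h3.trans ?_
    rw [← Real.exp_nat_mul, ← Real.exp_nat_mul]
    apply Real.exp_le_exp.2
    push_cast
    nlinarith
  have h2 : (k : ℝ) + 7 ≤ Real.exp (8 * a ^ 2 + 2 * t + 8) := by
    have h3 : 0 ≤ (((K : ℝ) + 1) ^ K) ^ 2 := by positivity
    have h4 : (((K : ℝ) + 1) ^ K) ^ 2 * Real.log (4 / η) ≤ Real.exp (8 * a ^ 2) * (2 * t) :=
      mul_le_mul h1 hη hη0 (Real.exp_pos _).le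
    have h5 : (1 : ℝ) ≤ Real.exp (8 * a ^ 2) := Real.one_le_exp (by positivity)
    have h6 : 2 * t + 8 ≤ Real.exp (2 * t + 8) := by
      have := Real.add_one_le_exp (2 * t + 8); linarith
    calc (k : ℝ) + 7 ≤ Real.exp (8 * a ^ 2) * (2 * t) + 8 := by linarith
      _ ≤ Real.exp (8 * a ^ 2) * (2 * t + 8) := by nlinarith
      _ ≤ Real.exp (8 * a ^ 2) * Real.exp (2 * t + 8) :=
          mul_le_mul_of_nonneg_left h6 (Real.exp_pos _).le
      _ = Real.exp (8 * a ^ 2 + 2 * t + 8) := by rw [← Real.exp_add]; congr 1; ring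
  have h3 : (2 : ℝ) + 4 * (K : ℝ) ^ 2 * ((k : ℝ) + 7) ≤ Real.exp (32 * a ^ 2 + 2 * t + 8) := by
    have h4 : (2 : ℝ) + 4 * (K : ℝ) ^ 2 ≤ Real.exp (24 * a ^ 2) := by
      have h5 := Real.add_one_le_exp (24 * a ^ 2)
      nlinarith
    have h5 : (1 : ℝ) ≤ (k : ℝ) + 7 := by have := Nat.cast_nonneg (α := ℝ) k; linarith
    calc (2 : ℝ) + 4 * (K : ℝ) ^ 2 * ((k : ℝ) + 7) ≤
          (2 + 4 * (K : ℝ) ^ 2) * ((k : ℝ) + 7) := by nlinarith
      _ ≤ Real.exp (24 * a ^ 2) * Real.exp (8 * a ^ 2 + 2 * t + 8) :=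
          mul_le_mul h4 h2 (by linarith) (Real.exp_pos _).le
      _ = Real.exp (32 * a ^ 2 + 2 * t + 8) := by rw [← Real.exp_add]; congr 1; ring
  have h4 : 32 * a ^ 2 + 2 * t + 8 ≤ Real.exp ((2 * B + 5) * t) := by
    have h5 : a ^ 2 = Real.exp (2 * B * t) := by
      rw [ha, ← Real.exp_nat_mul]; congr 1; push_cast; ring
    have h6 : a ^ 2 ≤ Real.exp ((2 * B + 1) * t) := by
      rw [h5]; apply Real.exp_le_exp.2; nlinarith
    have h7 : 2 * t + 8 ≤ 10 * Real.exp ((2 * B + 1) * t) := by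
      have h8 := Real.add_one_le_exp t
      have h9 : Real.exp t ≤ Real.exp ((2 * B + 1) * t) := by
        apply Real.exp_le_exp.2; nlinarith
      linarith
    have h8 : Real.exp ((2 * B + 5) * t) = Real.exp ((2 * B + 1) * t) * Real.exp (4 * t) := by
      rw [← Real.exp_add]; congr 1; ring
    have h9 : (42 : ℝ) ≤ Real.exp (4 * t) :=
      exp_four.trans (Real.exp_le_exp.2 (by linarith))
    rw [h8]
    have h10 := Real.exp_pos ((2 * B + 1) * t)
    nlinarith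
  have h5 : (NK K k : ℝ) ≤ Real.exp (2 + 4 * (K : ℝ) ^ 2 * ((k : ℝ) + 7)) := by
    have e1 : NK K k = 2 ^ (2 + 4 * K ^ 2 * (k + 7)) := by
      unfold NK
      rw [pow_add]
      norm_num
      ring
    rw [e1]
    push_cast
    have h6 : (2 : ℝ) ≤ Real.exp 1 := by have := Real.exp_one_gt_d9; linarith
    calc (2 : ℝ) ^ (2 + 4 * K ^ 2 * (k + 7)) ≤ Real.exp 1 ^ (2 + 4 * K ^ 2 * (k + 7)) :=
          pow_le_pow_left₀ (by norm_num) h6 _
      _ = Real.exp (2 + 4 * (K : ℝ) ^ 2 * ((k : ℝ) + 7)) := by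
          rw [← Real.exp_nat_mul]; congr 1; push_cast; ring
  exact h5.trans (Real.exp_le_exp.2 (h3.trans (Real.exp_le_exp.2 h4)))

/-- **The dichotomy.**  Either some element is incomparable to more than `K` elements, and then the
balance constant is at least `1/2 - η`, or the poset can be shortened. -/
theorem main_all : ∃ B : ℝ, 0 < B ∧ ∀ η : ℝ, 0 < η → η ≤ 1 / 2 →
    ∀ (P : Type) [Fintype P] [PartialOrder P] [Nonempty P],
      ((∃ x y : P, Ic x y) ∧ 1 / 2 - η ≤ balance P) ∨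
      ∃ (Q : Type) (_ : Fintype Q) (_ : PartialOrder Q), Nonempty Q ∧
        (Fintype.card Q : ℝ) ≤ Real.exp (Real.exp (Real.exp (B * tt η))) ∧
        |balance Q - balance P| ≤ η ∧ (InD Q ↔ InD P) ∧
        ∀ w, HasWidth Q w ↔ HasWidth P w := by
  obtain ⟨B, hB, hI⟩ := Pool.Agent.Y491.ID.incomparable_balance
  refine ⟨2 * B + 5, by linarith, fun η h0 h1 P _ _ _ => ?_⟩
  have ht := one_le_tt h0 h1
  set K := ⌈Real.exp (B * tt η)⌉₊ with hKdef
  have hK1 : Real.exp (B * tt η) ≤ K := Nat.le_ceil _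
  have hK2 : (K : ℝ) ≤ Real.exp (B * tt η) + 1 := (Nat.ceil_lt_add_one (Real.exp_pos _).le).le
  have hK0 : 0 < K := by
    have : (0 : ℝ) < K := (Real.exp_pos _).trans_le hK1
    exact_mod_cast this
  by_cases hthin : Thin K P
  · right
    have hlog0 : 0 ≤ Real.log (4 / η) := Real.log_nonneg (by rw [le_div_iff₀ h0]; linarith)
    have hlog : Real.log (4 / η) ≤ 2 * tt η := by
      have e1 : Real.log (4 / η) = Real.log 2 + Real.log (2 / η) := by
        rw [← Real.log_mul (by norm_num) (by positivity)]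
        congr 1; ring
      have e2 := log_ge_one h0 h1
      have e3 := log_le_tt h0 h1
      have e4 : Real.log 2 ≤ 1 := by
        have := Real.log_two_lt_d9; linarith
      linarith
    set k := ⌈(((K : ℝ) + 1) ^ K) ^ 2 * Real.log (4 / η)⌉₊ with hkdef
    have hk1 : (((K : ℝ) + 1) ^ K) ^ 2 * Real.log (4 / η) ≤ k := Nat.le_ceil _
    have hk2 : (k : ℝ) ≤ (((K : ℝ) + 1) ^ K) ^ 2 * Real.log (4 / η) + 1 :=
      (Nat.ceil_lt_add_one (by positivity)).le
    obtain ⟨Q, i1, i2, g1, _, g3, g4, g5, g6⟩ := main_thin (k := k) hK0 P hthin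
    refine ⟨Q, i1, i2, g1, ?_, g4.trans (rho_pow_le h0 hk1), g5, g6⟩
    have h5 := NK_le hB ht hK2 hlog hlog0 hk2
    have h6 : (Fintype.card Q : ℝ) ≤ NK K k := by exact_mod_cast g3.le
    linarith
  · left
    unfold Thin at hthin
    push Not at hthin
    obtain ⟨x, hx⟩ := hthin
    have h2 : Real.exp (B * Real.log (2 / η) ^ 3 / η ^ 4) ≤
        Nat.card {y : P // ¬ x ≤ y ∧ ¬ y ≤ x} := by
      have e1 : B * Real.log (2 / η) ^ 3 / η ^ 4 = B * tt η := by unfold tt; ring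
      rw [e1]
      refine hK1.trans ?_
      exact_mod_cast hx.le
    refine ⟨?_, hI η h0 h1 P x h2⟩
    have h3 : 0 < Nat.card {y : P // ¬ x ≤ y ∧ ¬ y ≤ x} := by omega
    obtain ⟨y⟩ := (Nat.card_pos_iff.1 h3).1
    exact ⟨x, y.1, y.2⟩

end Pool.Agent.U678.BC
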