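import Mathlib
import Pool.Agent.U678.BC.Fin

/-! Antichains, and the final statements. -/

set_option autoImplicit false
set_option linter.unusedSectionVars false

open Finset

namespace Pool.Agent.U678.BC

open Pool.Agent.H13R3.WB Pool.Agent.H931R3.Bal

/-- the antichain with `w` elements -/
def AC (w : ℕ) : Type := Fin w

instance (w : ℕ) : Fintype (AC w) := inferInstanceAs (Fintype (Fin w))

instance (w : ℕ) : DecidableEq (AC w) := inferInstanceAs (DecidableEq (Fin w))

instance (w : ℕ) : PartialOrder (AC w) where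
  le a b := a = b
  le_refl _ := rfl
  le_trans _ _ _ h h' := h.trans h'
  le_antisymm _ _ h _ := h

lemma AC_le {w : ℕ} {a b : AC w} : a ≤ b ↔ a = b := Iff.rfl

lemma card_AC (w : ℕ) : Fintype.card (AC w) = w := Fintype.card_fin w

lemma balance_le_half {P : Type} [Fintype P] [PartialOrder P] : balance P ≤ 1 / 2 := by
  unfold balance
  rcases isEmpty_or_nonempty P with h | h
  · rw [Real.iSup_of_isEmpty]; norm_num
  · apply ciSup_le
    rintro ⟨x, y⟩
    simp only
    by_cases hxy : x = y
    · subst hxy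
      rw [prob_self, min_self]; norm_num
    · have := prob_add hxy
      rcases le_total (prob P x y) (prob P y x) with h1 | h1
      · exact (min_le_left _ _).trans (by linarith)
      · exact (min_le_right _ _).trans (by linarith)

lemma balance_AC {w : ℕ} (hw : 2 ≤ w) : balance (AC w) = 1 / 2 := by
  apply le_antisymm balance_le_half
  let x : AC w := (⟨0, by omega⟩ : Fin w)
  let y : AC w := (⟨1, by omega⟩ : Fin w)
  have hxy : x ≠ y := by
    intro h
    have : (0 : ℕ) = 1 := congrArg (fun z : Fin w => (z : ℕ)) h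
    omega
  let e : AC w ≃o AC w :=
    { toEquiv := Equiv.swap x y
      map_rel_iff' := fun {a b} => by
        show Equiv.swap x y a = Equiv.swap x y b ↔ a = b
        exact (Equiv.swap x y).injective.eq_iff }
  have h1 := prob_iso e x y
  have e1 : e x = y := Equiv.swap_apply_left x y
  have e2 : e y = x := Equiv.swap_apply_right x y
  rw [e1, e2] at h1
  have h2 := prob_add hxy
  have h3 := le_balance x y
  rw [← h1, min_self] at h3
  linarith

lemma width_AC {w : ℕ} : HasWidth (AC w) w := by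
  classical
  refine ⟨⟨univ, ?_, by rw [card_univ, card_AC]⟩, fun s _ => ?_⟩
  · intro a _ b _ hab h
    exact hab h
  · have := card_le_univ s
    rwa [card_AC] at this

lemma AC_two_not_InD : ¬ InD (AC 2) := by
  intro h
  have hne : (0 : Fin 2) ≠ 1 := by decide
  obtain ⟨c, h1, h2, -⟩ := InD_blk h ((0 : Fin 2) : AC 2) ((1 : Fin 2) : AC 2)
    ⟨fun h => hne h, fun h => hne h.symm⟩
  have key : ∀ c : Fin 2, c ≠ 0 → c ≠ 1 → False := by decide
  exact key c h1 h2

/-- the bound for the number of elements -/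
noncomputable def bd (B η : ℝ) : ℝ := Real.exp (Real.exp (Real.exp (B * tt η)))

lemma two_le_bd {B η : ℝ} (hB : 0 < B) (h0 : 0 < η) (h1 : η ≤ 1 / 2) : 2 ≤ bd B η := by
  unfold bd
  have h2 := one_le_tt h0 h1
  have h3 : (1 : ℝ) ≤ Real.exp (B * tt η) := Real.one_le_exp (by positivity)
  have h4 : (1 : ℝ) ≤ Real.exp (Real.exp (B * tt η)) := Real.one_le_exp (by linarith)
  have h5 := Real.add_one_le_exp (Real.exp (Real.exp (B * tt η)))
  linarith

/-- the finite reduction outside of `𝒟` -/
theorem red_D : ∃ B : ℝ, 0 < B ∧ ∀ η : ℝ, 0 < η → η ≤ 1 / 2 →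
    ∀ (P : Type) [Fintype P] [PartialOrder P] [Nonempty P], ¬ InD P →
      ∃ (Q : Type) (_ : Fintype Q) (_ : PartialOrder Q), Nonempty Q ∧ ¬ InD Q ∧
        (Fintype.card Q : ℝ) ≤ bd B η ∧ |balance Q - balance P| ≤ η := by
  obtain ⟨B, hB, h⟩ := main_all
  refine ⟨B, hB, fun η h0 h1 P _ _ _ hD => ?_⟩
  rcases h η h0 h1 P with ⟨_, h2⟩ | ⟨Q, i1, i2, g1, g2, g3, g4, _⟩
  · refine ⟨AC 2, inferInstance, inferInstance, ⟨(0 : Fin 2)⟩, AC_two_not_InD, ?_, ?_⟩
    · rw [card_AC]; exact_mod_cast two_le_bd hB h0 h1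
    · rw [balance_AC le_rfl, abs_le]
      have := balance_le_half (P := P)
      constructor <;> linarith
  · exact ⟨Q, i1, i2, g1, fun h' => hD (g4.1 h'), g2, g3⟩

/-- the finite reduction for posets of given width -/
theorem red_W : ∃ B : ℝ, 0 < B ∧ ∀ η : ℝ, 0 < η → η ≤ 1 / 2 → ∀ w : ℕ, 1 ≤ w →
    ∀ (P : Type) [Fintype P] [PartialOrder P], HasWidth P w →
      ∃ (Q : Type) (_ : Fintype Q) (_ : PartialOrder Q), HasWidth Q w ∧
        (Fintype.card Q : ℝ) ≤ max (w : ℝ) (bd B η) ∧ |balance Q - balance P| ≤ η := by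
  obtain ⟨B, hB, h⟩ := main_all
  refine ⟨B, hB, fun η h0 h1 w hw P _ _ hP => ?_⟩
  have hne : Nonempty P := by
    obtain ⟨⟨s, _, hs⟩, _⟩ := hP
    obtain ⟨x, _⟩ := card_pos.1 (by omega : 0 < s.card)
    exact ⟨x⟩
  rcases h η h0 h1 P with ⟨⟨x, y, hxy⟩, h2⟩ | ⟨Q, i1, i2, g1, g2, g3, _, g5⟩
  · have hw2 : 2 ≤ w := by
      classical
      have h3 := hP.2 {x, y} (by
        intro a ha b hb hab
        simp only [coe_insert, coe_singleton, Set.mem_insert_iff, Set.mem_singleton_iff] at ha hb
        rcases ha with rfl | rfl <;> rcases hb with rfl | rfl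
        · exact absurd rfl hab
        · exact hxy.1
        · exact hxy.2
        · exact absurd rfl hab)
      rwa [card_pair hxy.ne] at h3
    refine ⟨AC w, inferInstance, inferInstance, width_AC, ?_, ?_⟩
    · rw [card_AC]; exact le_max_left _ _
    · rw [balance_AC hw2, abs_le]
      have := balance_le_half (P := P)
      constructor <;> linarith
  · exact ⟨Q, i1, i2, (g5 w).2 hP, g2.trans (le_max_right _ _), g3⟩

end Pool.Agent.U678.BC
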